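import Pool.Agent.Lib.MP_3f635c_an.Space

/-
The elements of the space as analytic functions in the disc.
-/

set_option autoImplicit false

noncomputable section

namespace Pool.Agent.Lib.MP_3f635c_an

open AddMonoidAlgebra BoundedContinuousFunction Filter Topology Metric

attribute [-simp] LaurentPolynomial.single_eq_C_mul_T

theorem norm_term_le (x : Big) {w : ℂ} {r : ℝ} (hw : ‖w‖ ≤ r) (n : ℕ) :
    ‖coef x n * w ^ n‖ ≤ ‖x‖ * r ^ n := by
  rw [norm_mul, norm_pow]
  exact mul_le_mul (norm_coef_le x n) (pow_le_pow_left₀ (norm_nonneg _) hw n) (by positivity)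
    (norm_nonneg _)

theorem summable_coef (x : Big) {w : ℂ} (hw : ‖w‖ < 1) :
    Summable fun n : ℕ => coef x n * w ^ n :=
  Summable.of_norm_bounded ((summable_geometric_of_lt_one (norm_nonneg w) hw).mul_left ‖x‖)
    (norm_term_le x le_rfl)

/-- The analytic function represented by an element. -/
def iota : XX →ₗ[ℂ] (ℂ → ℂ) where
  toFun x := fun w => if ‖w‖ < 1 then ∑' n : ℕ, coef x n * w ^ n else 0
  map_add' x y := by
    funext w
    simp only [Pi.add_apply]
    split_ifs with hw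
    · rw [← (summable_coef x hw).tsum_add (summable_coef y hw)]
      congr 1; funext n
      rw [Submodule.coe_add, coef_add, Pi.add_apply, add_mul]
    · simp
  map_smul' c x := by
    funext w
    simp only [Pi.smul_apply, RingHom.id_apply, smul_eq_mul]
    split_ifs with hw
    · rw [← tsum_mul_left]
      congr 1; funext n
      rw [Submodule.coe_smul, coef_smul, Pi.smul_apply, smul_eq_mul, mul_assoc]
    · simp

theorem iota_apply (x : XX) {w : ℂ} (hw : w ∈ ball (0 : ℂ) 1) :
    iota x w = ∑' n : ℕ, coef x n * w ^ n := if_pos (mem_ball_zero_iff.mp hw)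

theorem hasSum_iota (x : XX) {w : ℂ} (hw : w ∈ ball (0 : ℂ) 1) :
    HasSum (fun n : ℕ => coef x n * w ^ n) (iota x w) := by
  rw [iota_apply x hw]
  exact (summable_coef x (mem_ball_zero_iff.mp hw)).hasSum

theorem coeff_unique {a b : ℕ → ℂ} {F : ℂ → ℂ}
    (ha : ∀ w ∈ ball (0 : ℂ) 1, HasSum (fun n => a n * w ^ n) (F w))
    (hb : ∀ w ∈ ball (0 : ℂ) 1, HasSum (fun n => b n * w ^ n) (F w)) : a = b := by
  have key : ∀ c : ℕ → ℂ, (∀ w ∈ ball (0 : ℂ) 1, HasSum (fun n => c n * w ^ n) (F w)) →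
      HasFPowerSeriesAt F (FormalMultilinearSeries.ofScalars ℂ c) 0 := by
    intro c hc
    rw [hasFPowerSeriesAt_iff]
    filter_upwards [ball_mem_nhds (0 : ℂ) one_pos] with w hw
    simpa [FormalMultilinearSeries.coeff_ofScalars, mul_comm] using hc w hw
  have h := (key a ha).eq_formalMultilinearSeries (key b hb)
  funext n
  have h2 := congrArg (fun p => FormalMultilinearSeries.coeff p n) h
  simpa [FormalMultilinearSeries.coeff_ofScalars] using h2

theorem hasSum_poly (p : Polynomial ℂ) (w : ℂ) :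
    HasSum (fun n => p.coeff n * w ^ n) (p.eval w) := by
  rw [Polynomial.eval_eq_sum, Polynomial.sum]
  apply hasSum_sum_of_ne_finset_zero
  intro n hn
  rw [Polynomial.notMem_support_iff.mp hn, zero_mul]

theorem iota_differentiableOn (x : XX) : DifferentiableOn ℂ (iota x) (ball 0 1) := by
  have h : DifferentiableOn ℂ (fun w : ℂ => ∑' n : ℕ, coef x n * w ^ n) (ball 0 1) := by
    intro w hw
    obtain ⟨r, h1, h2⟩ := exists_between (mem_ball_zero_iff.mp hw)
    have hr : 0 ≤ r := (norm_nonneg w).trans h1.le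
    have hd : DifferentiableOn ℂ (fun w : ℂ => ∑' n : ℕ, coef x n * w ^ n) (ball 0 r) :=
      Complex.differentiableOn_tsum_of_summable_norm
        ((summable_geometric_of_lt_one hr h2).mul_left ‖(x : Big)‖)
        (fun n => by fun_prop) isOpen_ball
        (fun n z hz => norm_term_le x (mem_ball_zero_iff.mp hz).le n)
    exact (hd.differentiableAt
      (isOpen_ball.mem_nhds (mem_ball_zero_iff.mpr h1))).differentiableWithinAt
  exact h.congr fun w hw => iota_apply x hw

theorem coef_eq_of_nat {x : XX} {s : Sq} (h1 : ∀ n : ℕ, coef x n = s n) (h2 : ∀ n < 0, s n = 0) :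
    coef x = s := by
  funext n
  rcases lt_or_ge n 0 with h | h
  · rw [nn_of_mem x.2 h, h2 n h]
  · obtain ⟨m, rfl⟩ := Int.eq_ofNat_of_zero_le h
    exact h1 m

theorem iota_injective (x : XX) (h : ∀ w ∈ ball (0 : ℂ) 1, iota x w = 0) : x = 0 := by
  apply XX_ext
  have h1 : (fun n : ℕ => coef x n) = fun _ => 0 :=
    coeff_unique (F := iota x) (fun w hw => hasSum_iota x hw)
      (fun w hw => by rw [h w hw]; simp)
  exact coef_eq_of_nat (fun n => congrFun h1 n) (fun n _ => rfl)

theorem iota_continuous {w : ℂ} (hw : w ∈ ball (0 : ℂ) 1) : Continuous fun x : XX => iota x w := by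
  have hw' := mem_ball_zero_iff.mp hw
  let L : XX →ₗ[ℂ] ℂ := (LinearMap.proj w).comp iota
  refine AddMonoidHomClass.continuous_of_bound L (1 - ‖w‖)⁻¹ fun x => ?_
  have h1 := (hasSum_geometric_of_lt_one (norm_nonneg w) hw').mul_left ‖(x : Big)‖
  have h2 := (hasSum_iota x hw).norm_le_of_bounded h1 (norm_term_le x le_rfl)
  rw [mul_comm]; exact h2

theorem coef_of_iota_poly {x : XX} {p : Polynomial ℂ}
    (h : ∀ w ∈ ball (0 : ℂ) 1, iota x w = p.eval w) : coef x = (toLau p).coeff := by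
  have h1 : (fun n : ℕ => coef x n) = p.coeff :=
    coeff_unique (F := iota x) (fun w hw => hasSum_iota x hw)
      (fun w hw => by rw [h w hw]; exact hasSum_poly p w)
  exact coef_eq_of_nat (fun n => by rw [coeff_toLau]; exact congrFun h1 n)
    (fun n hn => coeff_toLau_neg p hn)

theorem iota_of_coef_poly {x : XX} {p : Polynomial ℂ} (h : ∀ n : ℕ, coef x n = p.coeff n) :
    ∀ w ∈ ball (0 : ℂ) 1, iota x w = p.eval w := by
  intro w hw
  have h1 := hasSum_iota x hw
  simp only [h] at h1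
  exact h1.unique (hasSum_poly p w)

theorem exists_iota_poly (p : Polynomial ℂ) :
    ∃ x : XX, ∀ w ∈ ball (0 : ℂ) 1, iota x w = p.eval w := by
  obtain ⟨x, hx, hx'⟩ := exists_Pol p
  exact ⟨⟨x, Pol.le_topologicalClosure hx⟩,
    iota_of_coef_poly fun n => by rw [← coeff_toLau]; exact congrFun hx' n⟩

theorem dense_poly :
    Dense {x : XX | ∃ p : Polynomial ℂ, ∀ w ∈ ball (0 : ℂ) 1, iota x w = p.eval w} := by
  have h1 : Dense {x : XX | (x : Big) ∈ Pol} := by
    rw [Subtype.dense_iff]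
    refine closure_mono ?_
    intro y hy
    exact ⟨⟨y, Pol.le_topologicalClosure hy⟩, hy, rfl⟩
  refine h1.mono fun x hx => ?_
  obtain ⟨p, hp⟩ := exists_poly hx
  exact ⟨p, iota_of_coef_poly hp⟩

theorem norm_op_rot_le (u : Circle) (x : XX) : ‖op _ (allowed_rot u) x‖ ≤ ‖x‖ := by
  have h := norm_opBig_apply _ (allowed_rot u) x
  simp only [Let.wt, one_mul] at h
  exact h

theorem norm_op_rot (u : Circle) (x : XX) : ‖op _ (allowed_rot u) x‖ = ‖x‖ := by
  refine le_antisymm (norm_op_rot_le u x) ?_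
  have e : op _ (allowed_rot u⁻¹) (op _ (allowed_rot u) x) = x := by
    apply XX_ext
    rw [coef_op, coef_op]
    funext n
    simp only [Let.act, rotS]
    rw [mul_assoc, ← Circle.coe_mul, ← mul_zpow, mul_inv_cancel, one_zpow, Circle.coe_one, mul_one]
  have h := norm_op_rot_le u⁻¹ (op _ (allowed_rot u) x)
  rwa [e] at h

theorem exists_rot (x : XX) (t : ℝ) :
    ∃ y : XX, ‖y‖ = ‖x‖ ∧
      ∀ w ∈ ball (0 : ℂ) 1, iota y w = iota x (Complex.exp (t * Complex.I) * w) := by
  refine ⟨op _ (allowed_rot (Circle.exp t)) x, norm_op_rot _ _, fun w hw => ?_⟩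
  have hw' : Complex.exp (t * Complex.I) * w ∈ ball (0 : ℂ) 1 := by
    rw [mem_ball_zero_iff] at hw ⊢
    rw [norm_mul, Complex.norm_exp_ofReal_mul_I, one_mul]; exact hw
  rw [iota_apply _ hw, iota_apply _ hw', coef_op]
  congr 1; funext n
  simp only [Let.act, rotS, zpow_natCast, Circle.coe_pow, Circle.coe_exp, mul_pow]
  ring

/-- The shift by j. -/
def sh (j : ℤ) : XX →L[ℂ] XX := op _ (allowed_shift j)

theorem coef_sh (j : ℤ) (x : XX) (n : ℤ) :
    coef (sh j x : XX) n = if 0 ≤ n then coef x (n - j) else 0 := by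
  rw [sh, coef_op]
  simp only [Let.act, toe, proj, conv_single, one_mul]

theorem norm_sh_le (j : ℤ) : ‖sh j‖ ≤ j.natAbs + 1 := norm_op_le _ _

theorem iota_sh_one (x : XX) : ∀ w ∈ ball (0 : ℂ) 1, iota (sh 1 x) w = w * iota x w := by
  intro w hw
  have h1 := (hasSum_iota x hw).mul_left w
  have h2 := (hasSum_nat_add_iff' 1).mpr (hasSum_iota (sh 1 x) hw)
  have h0 : coef (sh 1 x : XX) ((0 : ℕ) : ℤ) = 0 := by
    rw [coef_sh, if_pos (by simp)]
    exact nn_of_mem x.2 (by simp)
  rw [Finset.sum_range_one, h0, zero_mul, sub_zero] at h2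
  refine h2.unique (h1.congr_fun ?_)
  intro n
  rw [coef_sh, if_pos (by positivity)]
  have : ((n + 1 : ℕ) : ℤ) - 1 = n := by push_cast; ring
  rw [this]; ring

theorem iota_sh_neg_one (x : XX) :
    ∀ w ∈ ball (0 : ℂ) 1, w * iota (sh (-1) x) w = iota x w - iota x 0 := by
  intro w hw
  have h1 := (hasSum_iota (sh (-1) x) hw).mul_left w
  have h2 := (hasSum_nat_add_iff' 1).mpr (hasSum_iota x hw)
  have h0 : iota x 0 = coef x ((0 : ℕ) : ℤ) := by
    have h3 := hasSum_iota x (mem_ball_self one_pos)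
    have h4 : HasSum (fun n : ℕ => coef x n * (0 : ℂ) ^ n) (coef x ((0 : ℕ) : ℤ) * (0 : ℂ) ^ 0) :=
      hasSum_single 0 (fun n hn => by rw [zero_pow hn, mul_zero])
    rw [h3.unique h4, pow_zero, mul_one]
  rw [Finset.sum_range_one, pow_zero, mul_one, ← h0] at h2
  refine h1.unique (h2.congr_fun ?_)
  intro n
  rw [coef_sh, if_pos (by positivity)]
  have : (n : ℤ) - (-1) = ((n + 1 : ℕ) : ℤ) := by push_cast; ring
  rw [this]; ring

theorem sh_zero : sh 0 = 1 := by
  ext1 x
  apply XX_ext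
  funext n
  rw [coef_sh, sub_zero, one_apply_eq_self]
  split_ifs with h
  · rfl
  · exact (nn_of_mem x.2 (not_le.mp h)).symm

theorem sh_one_pow (n : ℕ) : sh 1 ^ n = sh n := by
  induction n with
  | zero => rw [pow_zero, Nat.cast_zero, sh_zero]
  | succ n ih =>
    rw [pow_succ', ih]
    ext1 x
    apply XX_ext
    funext m
    rw [mul_apply_eq_comp, coef_sh, coef_sh, coef_sh]
    have e : m - 1 - n = m - ((n + 1 : ℕ) : ℤ) := by push_cast; ring
    rw [e]
    split_ifs with h1 h2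
    · rfl
    · exact (nn_of_mem x.2 (by push_cast; omega)).symm
    · rfl

theorem sh_neg_one_pow (n : ℕ) : sh (-1) ^ n = sh (-n) := by
  induction n with
  | zero => rw [pow_zero, Nat.cast_zero, neg_zero, sh_zero]
  | succ n ih =>
    rw [pow_succ', ih]
    ext1 x
    apply XX_ext
    funext m
    rw [mul_apply_eq_comp, coef_sh, coef_sh, coef_sh]
    have e : m - -1 - -n = m - -((n + 1 : ℕ) : ℤ) := by push_cast; ring
    rw [e]
    split_ifs with h1 h2
    · rfl
    · omega
    · rfl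

theorem sh_neg_mul (n : ℕ) : sh (-n) * sh n = 1 := by
  ext1 x
  apply XX_ext
  funext m
  rw [mul_apply_eq_comp, coef_sh, coef_sh, one_apply_eq_self]
  have e : m - -n - n = m := by ring
  rw [e]
  split_ifs with h1 h2
  · rfl
  · omega
  · exact (nn_of_mem x.2 (not_le.mp h1)).symm

instance : Nontrivial XX := by
  refine ⟨⟨⟨oneBig, Pol.le_topologicalClosure oneBig_mem⟩, 0, fun h => ?_⟩⟩
  have h1 : coef oneBig 0 = coef 0 0 := congrArg (fun y : XX => coef y 0) h
  rw [coef_oneBig, coeff_one_zero] at h1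
  exact one_ne_zero h1

theorem spectralRadius_eq_one {A : Type} [NormedRing A] [NormedAlgebra ℂ A] [CompleteSpace A]
    (a : A) (h1 : ∀ n : ℕ, ‖a ^ n‖ ≤ n + 1) (h2 : ∀ n : ℕ, 1 ≤ (n + 1) * ‖a ^ n‖) :
    spectralRadius ℂ a = 1 := by
  have hx : Tendsto (fun n : ℕ => (n : ℝ) + 1) atTop atTop :=
    tendsto_atTop_add_const_right _ _ tendsto_natCast_atTop_atTop
  have up := (tendsto_rpow_div_mul_add 1 1 (-1) zero_ne_one).comp hx
  have lo := (tendsto_rpow_div_mul_add (-1) 1 (-1) zero_ne_one).comp hx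
  have h : Tendsto (fun n : ℕ => ‖a ^ n‖ ^ (1 / n : ℝ)) atTop (𝓝 1) := by
    refine tendsto_of_tendsto_of_tendsto_of_le_of_le lo up (fun n => ?_) (fun n => ?_)
    · have hn : (0 : ℝ) < n + 1 := by positivity
      have e : (-1 : ℝ) / (1 * ((n : ℝ) + 1) + -1) = -1 * (1 / n) := by ring
      simp only [Function.comp, e]
      rw [Real.rpow_mul hn.le, Real.rpow_neg_one]
      apply Real.rpow_le_rpow (by positivity) _ (by positivity)
      rw [inv_le_iff_one_le_mul₀' hn]; exact h2 n
    · have e : (1 : ℝ) / (1 * ((n : ℝ) + 1) + -1) = 1 / n := by ring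
      simp only [Function.comp, e]
      exact Real.rpow_le_rpow (norm_nonneg _) (h1 n) (by positivity)
  have h3 := ENNReal.tendsto_ofReal h
  rw [ENNReal.ofReal_one] at h3
  exact tendsto_nhds_unique (spectrum.pow_norm_pow_one_div_tendsto_nhds_spectralRadius a) h3

theorem spectralRadius_clm_eq_one {X : Type} [NormedAddCommGroup X] [NormedSpace ℂ X]
    [CompleteSpace X] (a : X →L[ℂ] X) (h1 : ∀ n : ℕ, ‖a ^ n‖ ≤ n + 1)
    (h2 : ∀ n : ℕ, 1 ≤ (n + 1) * ‖a ^ n‖) : spectralRadius ℂ a = 1 :=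
  spectralRadius_eq_one a h1 h2

theorem one_le_norm_mul (n : ℕ) : 1 ≤ ‖sh (-n)‖ * ‖sh n‖ := by
  have := norm_mul_le (sh (-n)) (sh n)
  rwa [sh_neg_mul, norm_one] at this

theorem norm_sh_nat (n : ℕ) : ‖sh n‖ ≤ n + 1 := by simpa using norm_sh_le n

theorem norm_sh_neg_nat (n : ℕ) : ‖sh (-n)‖ ≤ n + 1 := by simpa using norm_sh_le (-n)

theorem spectralRadius_sh_one : spectralRadius ℂ (sh 1) = 1 := by
  refine spectralRadius_clm_eq_one _ (fun n => ?_) (fun n => ?_)
  · rw [sh_one_pow]; exact norm_sh_nat n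
  · rw [sh_one_pow]
    exact (one_le_norm_mul n).trans
      (mul_le_mul_of_nonneg_right (norm_sh_neg_nat n) (ContinuousLinearMap.opNorm_nonneg _))

theorem spectralRadius_sh_neg_one : spectralRadius ℂ (sh (-1)) = 1 := by
  refine spectralRadius_clm_eq_one _ (fun n => ?_) (fun n => ?_)
  · rw [sh_neg_one_pow]; exact norm_sh_neg_nat n
  · rw [sh_neg_one_pow, mul_comm]
    exact (one_le_norm_mul n).trans
      (mul_le_mul_of_nonneg_left (norm_sh_nat n) (ContinuousLinearMap.opNorm_nonneg _))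

end Pool.Agent.Lib.MP_3f635c_an
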