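import Pool.Agent.Lib.MP_3f635c_an.Poly

/-
The key estimate for words in rotations and Toeplitz operators.
-/

set_option autoImplicit false

noncomputable section

namespace Pool.Agent.Lib.MP_3f635c_an

open AddMonoidAlgebra

attribute [-simp] LaurentPolynomial.single_eq_C_mul_T

/-- The Riesz projection on sequences. -/
def proj (a : Sq) : Sq := fun n => if 0 ≤ n then a n else 0

/-- The Toeplitz operator with symbol c on sequences. -/
def toe (c : Lau) (a : Sq) : Sq := proj (conv c a)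

theorem norm_toe_le {c : Lau} {ν : ℝ} (hc : Bd c ν) (hν : 0 ≤ ν) {a : Sq} {b : ℝ}
    (hb : ∀ n, ‖a n‖ ≤ b) (n : ℤ) : ‖toe c a n‖ ≤ ν * b := by
  have hb0 : 0 ≤ b := (norm_nonneg _).trans (hb 0)
  unfold toe proj
  split_ifs
  · exact hc a b hb n
  · rw [norm_zero]; positivity

section Structure

variable (N : ℕ) (M : ℕ) (ε : ℝ)

/-- The distinguished symbol. -/
def keySym : Lau := dil M ((ε : ℂ) • gg N)

/-- The shape of a word with i distinguished letters applied to the constant one. -/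
def Str : ℕ → ℕ → ℝ → Sq → Prop
  | 0, d, _, s => Sup s 0 d
  | 1, d, b, s => ∃ (v : Circle) (q : Sq), Sup q (-d) d ∧ (∀ n, ‖q n‖ ≤ b) ∧
      s = conv (dil M ((ε : ℂ) • rot v (gp N))) q
  | 2, d, b, s => ∃ (u v : Circle) (q : Sq), Sup q (-d) d ∧ (∀ n, ‖q n‖ ≤ b) ∧
      ∀ n, (d : ℤ) < n →
        s n = conv (dil M (((ε : ℂ) ^ 2) • (rot u (gg N) * rot v (gp N)))) q n
  | _ + 3, _, _, _ => False

variable {N M ε}

theorem Str.rot {i d : ℕ} {b : ℝ} {s : Sq} (h : Str N M ε i d b s) (u : Circle) :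
    Str N M ε i d b (rotS u s) := by
  match i, h with
  | 0, h => exact Sup.rotS h u
  | 1, ⟨v, q, h1, h2, h3⟩ =>
    refine ⟨u ^ (M : ℤ) * v, rotS u q, h1.rotS u, fun n => by rw [norm_rotS]; exact h2 n, ?_⟩
    rw [h3, rotS_conv, rot_dil]
    simp only [map_smul, rot_rot]
  | 2, ⟨v, v', q, h1, h2, h3⟩ =>
    refine ⟨u ^ (M : ℤ) * v, u ^ (M : ℤ) * v', rotS u q, h1.rotS u,
      fun n => by rw [norm_rotS]; exact h2 n, fun n hn => ?_⟩
    have e : rotS u s n = rotS u (conv (dil M (((ε : ℂ) ^ 2) •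
        (MP_3f635c_an.rot v (gg N) * MP_3f635c_an.rot v' (gp N)))) q) n := by
      simp only [rotS, h3 n hn]
    rw [e, rotS_conv, rot_dil]
    simp only [map_smul, map_mul, rot_rot]

theorem coeff_smul_rot_ne_zero {x : ℂ} {v : Circle} {c : Lau} {j : ℤ}
    (h : (x • rot v c).coeff j ≠ 0) : c.coeff j ≠ 0 := by
  intro h0
  apply h
  rw [coeff_smul_apply, coeff_rot, h0]; simp

theorem Str.low {i d e : ℕ} {b ν : ℝ} {s : Sq} {c : Lau} (h : Str N M ε i d b s)
    (hc : Sup c.coeff (-e) e) (hb : Bd c ν) (hd : d + e < M) :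
    Str N M ε i (d + e) (ν * b) (toe c s) := by
  match i, h with
  | 0, h =>
    intro n hn
    unfold toe proj at hn
    split_ifs at hn with h0
    · have := (hc.conv h) n hn
      push_cast; omega
    · exact absurd rfl hn
  | 1, ⟨v, q, h1, h2, h3⟩ =>
    have hq : Sup (conv c q) (-((d + e : ℕ) : ℤ)) ((d + e : ℕ) : ℤ) :=
      (hc.conv h1).mono (by push_cast; omega) (by push_cast; omega)
    refine ⟨v, conv c q, hq, hb q b h2, ?_⟩
    funext n
    rw [h3, toe, conv_comm, proj]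
    split_ifs with h0
    · rfl
    · symm
      by_contra hne
      obtain ⟨j, j1, j2⟩ := conv_dil_ne_zero hne
      have j3 := (gp_supp N j (coeff_smul_rot_ne_zero j1)).1
      have j4 := (hq _ j2).1
      have hM : (0 : ℤ) ≤ M := Int.natCast_nonneg M
      have : (1 : ℤ) * M ≤ j * M := mul_le_mul_of_nonneg_right j3 hM
      have hd' : ((d + e : ℕ) : ℤ) < M := by exact_mod_cast hd
      omega
  | 2, ⟨v, v', q, h1, h2, h3⟩ =>
    have hq : Sup (conv c q) (-((d + e : ℕ) : ℤ)) ((d + e : ℕ) : ℤ) :=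
      (hc.conv h1).mono (by push_cast; omega) (by push_cast; omega)
    refine ⟨v, v', conv c q, hq, hb q b h2, fun n hn => ?_⟩
    push_cast at hn
    rw [toe, proj, if_pos (by omega), ← conv_comm]
    apply conv_congr
    intro j hj
    have := hc j hj
    exact h3 _ (by omega)

theorem Str.key {i d : ℕ} {b : ℝ} {s : Sq} (h : Str N M ε i d b s) (hi : i < 2)
    (hs : i = 0 → ∀ n, ‖s n‖ ≤ b) (hd : d < M) :
    Str N M ε (i + 1) d b (toe (keySym N M ε) s) := by
  have hM : (0 : ℤ) ≤ M := Int.natCast_nonneg M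
  have hd' : (d : ℤ) < M := by exact_mod_cast hd
  match i, h with
  | 0, h =>
    refine ⟨1, s, Sup.mono h (by omega) le_rfl, hs rfl, ?_⟩
    funext n
    rw [rot_one, toe, proj, keySym, gg, smul_add, map_add, map_add, LinearMap.add_apply,
      Pi.add_apply]
    split_ifs with h0
    · rw [add_eq_left]
      by_contra hne
      obtain ⟨j, j1, j2⟩ := conv_dil_ne_zero hne
      rw [← rot_one (gm N)] at j1
      have j3 := (gm_supp N j (coeff_smul_rot_ne_zero j1)).1
      have j4 := (h _ j2).2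
      have : j * M ≤ (-1 : ℤ) * M := mul_le_mul_of_nonneg_right j3 hM
      omega
    · symm
      by_contra hne
      obtain ⟨j, j1, j2⟩ := conv_dil_ne_zero hne
      rw [← rot_one (gp N)] at j1
      have j3 := (gp_supp N j (coeff_smul_rot_ne_zero j1)).1
      have j4 := (h _ j2).1
      have : (1 : ℤ) * M ≤ j * M := mul_le_mul_of_nonneg_right j3 hM
      omega
  | 1, ⟨v, q, h1, h2, h3⟩ =>
    refine ⟨1, v, q, h1, h2, fun n hn => ?_⟩
    rw [toe, proj, if_pos (by omega), h3, keySym, ← conv_mul, ← map_mul, rot_one,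
      smul_mul_smul_comm, pow_two]

/-- The test functional at scale M. -/
def phi (N M : ℕ) (A : ℝ) (s : Sq) : ℂ := (A : ℂ) * pair (ph N) (fun m => s (m * M))

theorem Str.final {i d : ℕ} {b A : ℝ} {s : Sq} (h : Str N M ε i d b s) (hd : d < M)
    (hA : 0 ≤ A) :
    (i < 2 ∧ phi N M A s = 0) ∨
      (i = 2 ∧ ‖phi N M A s‖ ≤ A * ε ^ 2 * (2 * Real.sqrt N) * b) := by
  have hM : (0 : ℤ) ≤ M := Int.natCast_nonneg M
  have hd' : (d : ℤ) < M := by exact_mod_cast hd
  match i, h with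
  | 0, h =>
    left
    refine ⟨by norm_num, ?_⟩
    rw [phi, pair_eq_zero, mul_zero]
    intro j hj
    by_contra hne
    have j3 := (ph_supp N j hj).1
    have j4 := (h _ hne).2
    have : (1 : ℤ) * M ≤ j * M := mul_le_mul_of_nonneg_right j3 hM
    omega
  | 1, ⟨v, q, h1, _, h3⟩ =>
    left
    refine ⟨by norm_num, ?_⟩
    rw [phi, pair_eq_zero, mul_zero]
    intro j hj
    have e := conv_dil_eval h1 ((ε : ℂ) • MP_3f635c_an.rot v (gp N)) 0 j (M := M) (by omega)
      (by omega) (by omega)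
    rw [zero_add] at e
    rw [h3, e]
    by_contra hne
    have j1 := (gp_supp N j (coeff_smul_rot_ne_zero (left_ne_zero_of_mul hne))).2
    have j2 := (ph_supp N j hj).2
    omega
  | 2, ⟨u, v, q, h1, h2, h3⟩ =>
    right
    refine ⟨rfl, ?_⟩
    have e : pair (ph N) (fun m => s (m * M))
        = pair (ph N) (MP_3f635c_an.rot u (gg N) * MP_3f635c_an.rot v (gp N)).coeff
          * ((ε : ℂ) ^ 2 * q 0) := by
      rw [← pair_mul_right]
      apply pair_congr
      intro j hj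
      have j3 := (ph_supp N j hj).1
      have : (1 : ℤ) * M ≤ j * M := mul_le_mul_of_nonneg_right j3 hM
      have e := conv_dil_eval h1 (((ε : ℂ) ^ 2) •
        (MP_3f635c_an.rot u (gg N) * MP_3f635c_an.rot v (gp N))) 0 j (M := M) (by omega)
        (by omega) (by omega)
      rw [zero_add] at e
      rw [h3 _ (by omega), e, coeff_smul_apply, smul_eq_mul]; ring
    rw [phi, e, norm_mul, norm_mul, norm_mul, norm_pow, Complex.norm_real, Complex.norm_real,
      Real.norm_of_nonneg hA, Real.norm_eq_abs, sq_abs]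
    have a1 := norm_pair_rot N u v
    have a2 := h2 0
    have a3 : ‖pair (ph N) (MP_3f635c_an.rot u (gg N) * MP_3f635c_an.rot v (gp N)).coeff‖ * ‖q 0‖
        ≤ (2 * Real.sqrt N) * b := mul_le_mul a1 a2 (norm_nonneg _) (by positivity)
    have a4 : 0 ≤ A * ε ^ 2 := by positivity
    nlinarith [mul_le_mul_of_nonneg_left a3 a4]

end Structure

/-- Letters: rotations and weighted Toeplitz operators. -/
inductive Let : Type
  | rot (u : Circle) : Let
  | toe (c : Lau) (w : ℝ) : Let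

def Let.act : Let → Sq → Sq
  | .rot u, s => rotS u s
  | .toe c _, s => MP_3f635c_an.toe c s

def Let.wt : Let → ℝ
  | .rot _ => 1
  | .toe _ w => w

def wact (W : List Let) (s : Sq) : Sq := W.foldr Let.act s

def wwt (W : List Let) : ℝ := (W.map Let.wt).prod

theorem wact_cons (l : Let) (W : List Let) (s : Sq) : wact (l :: W) s = l.act (wact W s) := rfl

theorem wwt_cons (l : Let) (W : List Let) : wwt (l :: W) = l.wt * wwt W := by
  simp [wwt]

/-- The numerical data of one scale. -/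
structure Par where
  N : ℕ
  M : ℕ
  D : ℕ
  ε : ℝ
  η : ℝ
  A : ℝ
  a : ℝ
  γ : ℝ
  hD : 0 < D
  hε : 0 ≤ ε
  hA : 0 ≤ A
  ha : 1 ≤ a
  hγ : l1 (gg N) ≤ γ
  hσ : A * l1 (ph N) ≤ a
  h1 : ε * γ ≤ η
  h3 : (ε * γ) ^ 3 * a ≤ η ^ 3
  h2 : A * ε ^ 2 * (2 * Real.sqrt N) ≤ η ^ 2
  hM : D * a ≤ M

/-- Admissible letters for a scale. -/
def Par.OK (p : Par) : Let → Prop
  | .rot _ => True
  | .toe c w =>
    (∃ (e : ℕ) (ν : ℝ), 0 ≤ ν ∧ Sup c.coeff (-e) e ∧ Bd c ν ∧ ν * (1 + e / p.D) ≤ w) ∨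
    (∃ ν : ℝ, 0 ≤ ν ∧ Bd c ν ∧ ν * p.a ≤ w) ∨
    (c = keySym p.N p.M p.ε ∧ w = p.η)

def Par.Inv (p : Par) (s : Sq) (lam : ℝ) : Prop :=
  (∃ b : ℝ, (∀ n, ‖s n‖ ≤ b) ∧ b * p.a ≤ lam) ∨
  ∃ (i d : ℕ) (b : ℝ), 0 ≤ b ∧ d < p.M ∧ (∀ n, ‖s n‖ ≤ b * (p.ε * p.γ) ^ i) ∧
    b * (1 + d / p.D) * p.η ^ i ≤ lam ∧ Str p.N p.M p.ε i d b s

theorem Par.nu_nonneg (p : Par) : 0 ≤ p.ε * p.γ :=
  mul_nonneg p.hε ((l1_nonneg _).trans p.hγ)

theorem Par.eta_nonneg (p : Par) : 0 ≤ p.η := p.nu_nonneg.trans p.h1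

theorem Par.bd_key (p : Par) : Bd (keySym p.N p.M p.ε) (p.ε * p.γ) :=
  bd_dil_smul _ _ _ _ p.hε p.hγ

theorem Str.le_two {N M : ℕ} {ε : ℝ} {i d : ℕ} {b : ℝ} {s : Sq} (h : Str N M ε i d b s) :
    i ≤ 2 := by
  match i, h with
  | 0, _ => omega
  | 1, _ => omega
  | 2, _ => omega

theorem Par.inv_step (p : Par) {s : Sq} {lam : ℝ} (h : p.Inv s lam) {l : Let} (hl : p.OK l) :
    p.Inv (l.act s) (l.wt * lam) := by
  have hDpos : (0 : ℝ) < p.D := by exact_mod_cast p.hD
  have ha := p.ha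
  have hnu := p.nu_nonneg
  have heta := p.eta_nonneg
  cases l with
  | rot u =>
    simp only [Let.act, Let.wt, one_mul]
    rcases h with ⟨b, h1, h2⟩ | ⟨i, d, b, h0, h1, h2, h3, h4⟩
    · exact Or.inl ⟨b, fun n => by rw [norm_rotS]; exact h1 n, h2⟩
    · exact Or.inr ⟨i, d, b, h0, h1, fun n => by rw [norm_rotS]; exact h2 n, h3, h4.rot u⟩
  | toe c w =>
    simp only [Let.act, Let.wt]
    rcases h with ⟨b, h1, h2⟩ | ⟨i, d, b, h0, h1, h2, h3, h4⟩
    · have hb0 : 0 ≤ b := (norm_nonneg _).trans (h1 0)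
      have hex : ∃ ν : ℝ, 0 ≤ ν ∧ Bd c ν ∧ ν ≤ w := by
        rcases hl with ⟨e, ν, k1, -, k3, k4⟩ | ⟨ν, k1, k2, k3⟩ | ⟨rfl, rfl⟩
        · refine ⟨ν, k1, k3, le_trans ?_ k4⟩
          have : (0 : ℝ) ≤ e / p.D := by positivity
          nlinarith
        · exact ⟨ν, k1, k2, le_trans (by nlinarith) k3⟩
        · exact ⟨_, hnu, p.bd_key, p.h1⟩
      obtain ⟨ν, k1, k2, k3⟩ := hex
      refine Or.inl ⟨ν * b, norm_toe_le k2 k1 h1, ?_⟩
      rw [mul_assoc]
      exact mul_le_mul k3 h2 (by positivity) (k1.trans k3)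
    · have hpow : (p.ε * p.γ) ^ i ≤ p.η ^ i := pow_le_pow_left₀ hnu p.h1 i
      have hdD : (0 : ℝ) ≤ d / p.D := by positivity
      have hei : 0 ≤ p.η ^ i := by positivity
      have hlam : b * p.η ^ i ≤ lam := by
        refine le_trans ?_ h3
        have : 0 ≤ b * (d / p.D) * p.η ^ i := by positivity
        nlinarith
      rcases hl with ⟨e, ν, k1, k2, k3, k4⟩ | ⟨ν, k1, k2, k3⟩ | ⟨rfl, rfl⟩
      · have heD : (0 : ℝ) ≤ e / p.D := by positivity
        have hmain : ν * b * (1 + ((d + e : ℕ) : ℝ) / p.D) * p.η ^ i ≤ w * lam := by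
          have a1 : 1 + ((d + e : ℕ) : ℝ) / p.D ≤ (1 + e / p.D) * (1 + d / p.D) := by
            push_cast
            rw [add_div]
            nlinarith [mul_nonneg heD hdD]
          have a2 : ν * b * (1 + ((d + e : ℕ) : ℝ) / p.D) * p.η ^ i
              ≤ ν * b * ((1 + e / p.D) * (1 + d / p.D)) * p.η ^ i := by
            gcongr
          refine a2.trans ?_
          have a3 : ν * b * ((1 + e / p.D) * (1 + d / p.D)) * p.η ^ i
              = (ν * (1 + e / p.D)) * (b * (1 + d / p.D) * p.η ^ i) := by ring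
          rw [a3]
          exact mul_le_mul k4 h3 (by positivity) (le_trans (by positivity) k4)
        have hsup : ∀ n, ‖toe c s n‖ ≤ ν * b * (p.ε * p.γ) ^ i := fun n => by
          rw [mul_assoc]; exact norm_toe_le k3 k1 h2 n
        by_cases hde : d + e < p.M
        · exact Or.inr ⟨i, d + e, ν * b, by positivity, hde, hsup, hmain, h4.low k2 k3 hde⟩
        · refine Or.inl ⟨_, hsup, le_trans ?_ hmain⟩
          have a1 : p.a ≤ 1 + ((d + e : ℕ) : ℝ) / p.D := by
            have b1 : (p.M : ℝ) ≤ ((d + e : ℕ) : ℝ) := by exact_mod_cast not_lt.mp hde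
            have b2 : p.a ≤ ((d + e : ℕ) : ℝ) / p.D := by
              rw [le_div_iff₀ hDpos, mul_comm]; exact p.hM.trans b1
            linarith
          have a2 : ν * b * (p.ε * p.γ) ^ i * p.a
              ≤ ν * b * p.η ^ i * (1 + ((d + e : ℕ) : ℝ) / p.D) := by
            gcongr
          linarith
      · refine Or.inl ⟨_, norm_toe_le k2 k1 h2, ?_⟩
        have a1 : ν * (b * (p.ε * p.γ) ^ i) * p.a = (ν * p.a) * (b * (p.ε * p.γ) ^ i) := by ring
        rw [a1]
        refine mul_le_mul k3 (le_trans ?_ hlam) (by positivity) (le_trans (by positivity) k3)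
        gcongr
      · have hsup : ∀ n, ‖toe (keySym p.N p.M p.ε) s n‖ ≤ b * (p.ε * p.γ) ^ (i + 1) := fun n => by
          have := norm_toe_le p.bd_key hnu h2 n
          rw [pow_succ]; linarith
        by_cases hi : i < 2
        · refine Or.inr ⟨i + 1, d, b, h0, h1, hsup, ?_, h4.key hi ?_ h1⟩
          · have := mul_le_mul_of_nonneg_left h3 heta
            rw [pow_succ]; linarith
          · rintro rfl n
            simpa using h2 n
        · have hi2 : i = 2 := by have := h4.le_two; omega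
          subst hi2
          refine Or.inl ⟨_, hsup, ?_⟩
          have a1 := mul_le_mul_of_nonneg_left p.h3 h0
          have a2 := mul_le_mul_of_nonneg_left hlam heta
          have a3 : b * (p.ε * p.γ) ^ (2 + 1) * p.a = b * ((p.ε * p.γ) ^ 3 * p.a) := by ring
          have a4 : b * p.η ^ 3 = p.η * (b * p.η ^ 2) := by ring
          rw [a3]
          exact a1.trans (a4 ▸ a2)

theorem norm_one_coeff_le (n : ℤ) : ‖(1 : Lau).coeff n‖ ≤ 1 := by
  by_cases h : (1 : Lau).coeff n = 0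
  · rw [h]; simp
  · have := sup_one n h
    have hn : n = 0 := by omega
    rw [hn, coeff_one_zero]; simp

theorem Par.inv_word (p : Par) (W : List Let) (hW : ∀ l ∈ W, p.OK l) :
    p.Inv (wact W (1 : Lau).coeff) (wwt W) := by
  induction W with
  | nil =>
    have hM : 0 < p.M := by
      have hDpos : (1 : ℝ) ≤ p.D := by exact_mod_cast p.hD
      have h1 := p.hM
      have h2 := p.ha
      have : (0 : ℝ) < p.M := by nlinarith
      exact_mod_cast this
    refine Or.inr ⟨0, 0, 1, zero_le_one, hM, fun n => ?_, by simp [wwt], sup_one⟩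
    simpa [wact] using norm_one_coeff_le n
  | cons l W ih =>
    rw [wact_cons, wwt_cons]
    exact p.inv_step (ih fun l' h => hW l' (List.mem_cons_of_mem _ h)) (hW l List.mem_cons_self)

theorem norm_phi_le (N M : ℕ) {A : ℝ} (hA : 0 ≤ A) (s : Sq) (b : ℝ) (hs : ∀ n, ‖s n‖ ≤ b) :
    ‖phi N M A s‖ ≤ A * l1 (ph N) * b := by
  rw [phi, norm_mul, Complex.norm_real, Real.norm_of_nonneg hA, mul_assoc]
  exact mul_le_mul_of_nonneg_left (norm_pair_le _ _ b fun j => hs _) hA

theorem Par.key_estimate (p : Par) (W : List Let) (hW : ∀ l ∈ W, p.OK l) :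
    ‖phi p.N p.M p.A (wact W (1 : Lau).coeff)‖ ≤ wwt W := by
  have hDpos : (0 : ℝ) < p.D := by exact_mod_cast p.hD
  have heta := p.eta_nonneg
  rcases p.inv_word W hW with ⟨b, h1, h2⟩ | ⟨i, d, b, h0, h1, h2, h3, h4⟩
  · have hb0 : 0 ≤ b := (norm_nonneg _).trans (h1 0)
    refine (norm_phi_le _ _ p.hA _ b h1).trans (le_trans ?_ h2)
    rw [mul_comm]
    exact mul_le_mul_of_nonneg_left p.hσ hb0
  · have hdD : (0 : ℝ) ≤ d / p.D := by positivity
    rcases h4.final h1 p.hA with ⟨-, h5⟩ | ⟨rfl, h5⟩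
    · rw [h5, norm_zero]
      exact le_trans (by positivity) h3
    · refine h5.trans (le_trans ?_ h3)
      have a1 := mul_le_mul_of_nonneg_right p.h2 h0
      have : 0 ≤ b * (d / p.D) * p.η ^ 2 := by positivity
      nlinarith

end Pool.Agent.Lib.MP_3f635c_an
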