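import Mathlib

/-
Laurent polynomials acting on two-sided sequences by convolution.
-/

set_option autoImplicit false

noncomputable section

namespace Pool.Agent.Lib.MP_3f635c_an

open AddMonoidAlgebra

attribute [-simp] LaurentPolynomial.single_eq_C_mul_T

abbrev Lau : Type := AddMonoidAlgebra ℂ ℤ
abbrev Sq : Type := ℤ → ℂ

/-- Translation of sequences. -/
def tr (j : ℤ) : Module.End ℂ Sq := LinearMap.funLeft ℂ ℂ (fun n => n - j)

/-- Convolution of a sequence with a Laurent polynomial. -/
def conv : Lau →ₐ[ℂ] Module.End ℂ Sq :=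
  AddMonoidAlgebra.lift ℂ (Module.End ℂ Sq) ℤ
    { toFun := fun j => tr j.toAdd
      map_one' := by ext a n; simp [tr]
      map_mul' := fun i j => by
        ext a n
        simp [tr, sub_sub] }

theorem conv_single (j : ℤ) (c : ℂ) (a : Sq) (n : ℤ) :
    conv (single j c) a n = c * a (n - j) := by
  simp [conv, tr]

theorem conv_apply (c : Lau) (a : Sq) (n : ℤ) :
    conv c a n = c.coeff.sum fun j x => x * a (n - j) := by
  induction c using AddMonoidAlgebra.induction_linear with
  | zero => simp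
  | add x y hx hy =>
    rw [map_add, LinearMap.add_apply, Pi.add_apply, hx, hy, coeff_add, Finsupp.sum_add_index']
    · simp
    · intro j b c; ring
  | single j c => rw [conv_single, coeff_single, Finsupp.sum_single_index]; simp

theorem conv_mul (c d : Lau) (a : Sq) : conv (c * d) a = conv c (conv d a) := by
  rw [map_mul]; rfl

theorem conv_comm (c d : Lau) (a : Sq) : conv c (conv d a) = conv d (conv c a) := by
  rw [← conv_mul, mul_comm, conv_mul]

theorem conv_coeff (c d : Lau) : conv c ⇑d.coeff = ⇑(c * d).coeff := by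
  funext n
  rw [conv_apply, coeff_mul_apply_left]
  simp only [sub_eq_neg_add]

theorem conv_ne_zero {c : Lau} {a : Sq} {n : ℤ} (h : conv c a n ≠ 0) :
    ∃ j, c.coeff j ≠ 0 ∧ a (n - j) ≠ 0 := by
  rw [conv_apply] at h
  obtain ⟨j, -, hj⟩ := Finset.exists_ne_zero_of_sum_ne_zero h
  exact ⟨j, left_ne_zero_of_mul hj, right_ne_zero_of_mul hj⟩

theorem conv_congr {c : Lau} {a a' : Sq} {n : ℤ}
    (h : ∀ j, c.coeff j ≠ 0 → a (n - j) = a' (n - j)) : conv c a n = conv c a' n := by
  rw [conv_apply, conv_apply]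
  apply Finsupp.sum_congr
  intro j hj
  rw [h j (Finsupp.mem_support_iff.mp hj)]

/-- Dilation of frequencies. -/
def dil (M : ℤ) : Lau →ₐ[ℂ] Lau :=
  AddMonoidAlgebra.lift ℂ Lau ℤ
    { toFun := fun j => single (j.toAdd * M) 1
      map_one' := by simp [one_def]
      map_mul' := fun i j => by simp [single_mul_single, add_mul] }

theorem dil_single (M j : ℤ) (c : ℂ) : dil M (single j c) = single (j * M) c := by
  simp [dil]

theorem conv_dil (M : ℤ) (c : Lau) (a : Sq) (n : ℤ) :
    conv (dil M c) a n = c.coeff.sum fun j x => x * a (n - j * M) := by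
  induction c using AddMonoidAlgebra.induction_linear with
  | zero => simp
  | add x y hx hy =>
    rw [map_add, map_add, LinearMap.add_apply, Pi.add_apply, hx, hy, coeff_add,
      Finsupp.sum_add_index']
    · simp
    · intro j b c; ring
  | single j c => rw [dil_single, conv_single, coeff_single, Finsupp.sum_single_index]; simp

theorem conv_dil_ne_zero {M : ℤ} {c : Lau} {a : Sq} {n : ℤ} (h : conv (dil M c) a n ≠ 0) :
    ∃ j, c.coeff j ≠ 0 ∧ a (n - j * M) ≠ 0 := by
  rw [conv_dil] at h
  obtain ⟨j, -, hj⟩ := Finset.exists_ne_zero_of_sum_ne_zero h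
  exact ⟨j, left_ne_zero_of_mul hj, right_ne_zero_of_mul hj⟩

/-- Rotation of Laurent polynomials. -/
def rot (u : Circle) : Lau →ₐ[ℂ] Lau :=
  AddMonoidAlgebra.lift ℂ Lau ℤ
    { toFun := fun j => single j.toAdd ((u ^ j.toAdd : Circle) : ℂ)
      map_one' := by simp [one_def]
      map_mul' := fun i j => by
        rw [single_mul_single, toAdd_mul, zpow_add, Circle.coe_mul] }

theorem rot_single (u : Circle) (j : ℤ) (c : ℂ) :
    rot u (single j c) = single j (c * ((u ^ j : Circle) : ℂ)) := by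
  simp [rot]

theorem coeff_rot (u : Circle) (c : Lau) (j : ℤ) :
    (rot u c).coeff j = c.coeff j * ((u ^ j : Circle) : ℂ) := by
  induction c using AddMonoidAlgebra.induction_linear with
  | zero => simp
  | add x y hx hy => rw [map_add, coeff_add, coeff_add, Finsupp.add_apply, Finsupp.add_apply, hx,
      hy, add_mul]
  | single i c =>
    rw [rot_single, coeff_single, coeff_single, Finsupp.single_apply, Finsupp.single_apply]
    split_ifs with h
    · rw [h]
    · simp

theorem rot_rot (u v : Circle) (c : Lau) : rot u (rot v c) = rot (u * v) c := by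
  ext j
  rw [coeff_rot, coeff_rot, coeff_rot, mul_zpow, Circle.coe_mul]; ring

theorem rot_one (c : Lau) : rot 1 c = c := by
  ext j
  rw [coeff_rot]; simp

theorem rot_dil (u : Circle) (M : ℤ) (c : Lau) : rot u (dil M c) = dil M (rot (u ^ M) c) := by
  induction c using AddMonoidAlgebra.induction_linear with
  | zero => simp
  | add x y hx hy => simp only [map_add, hx, hy]
  | single i c => rw [dil_single, rot_single, rot_single, dil_single, ← zpow_mul, mul_comm M i]

/-- Rotation of sequences. -/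
def rotS (u : Circle) (a : Sq) : Sq := fun n => a n * ((u ^ n : Circle) : ℂ)

theorem rotS_conv (u : Circle) (c : Lau) (a : Sq) :
    rotS u (conv c a) = conv (rot u c) (rotS u a) := by
  induction c using AddMonoidAlgebra.induction_linear with
  | zero => funext n; simp [rotS]
  | add x y hx hy =>
    rw [map_add, map_add, map_add, LinearMap.add_apply, LinearMap.add_apply, ← hx, ← hy]
    funext n; simp [rotS, add_mul]
  | single i c =>
    funext n
    rw [rot_single, conv_single]
    simp only [rotS, conv_single]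
    have : u ^ n = u ^ i * u ^ (n - i) := by rw [← zpow_add]; congr 1; ring
    rw [this, Circle.coe_mul]; ring

theorem norm_rotS (u : Circle) (a : Sq) (n : ℤ) : ‖rotS u a n‖ = ‖a n‖ := by
  simp only [rotS, norm_mul, Circle.norm_coe, mul_one]

/-- The support of the sequence lies in the interval from lo to hi. -/
def Sup (a : Sq) (lo hi : ℤ) : Prop := ∀ n, a n ≠ 0 → lo ≤ n ∧ n ≤ hi

theorem Sup.mono {a : Sq} {lo hi lo' hi' : ℤ} (h : Sup a lo hi) (h1 : lo' ≤ lo) (h2 : hi ≤ hi') :
    Sup a lo' hi' := fun n hn => ⟨h1.trans (h n hn).1, (h n hn).2.trans h2⟩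

theorem Sup.conv {c : Lau} {a : Sq} {lo hi lo' hi' : ℤ} (hc : Sup c.coeff lo hi)
    (ha : Sup a lo' hi') : Sup (conv c a) (lo + lo') (hi + hi') := by
  intro n hn
  obtain ⟨j, h1, h2⟩ := conv_ne_zero hn
  have := hc j h1
  have := ha _ h2
  omega

theorem Sup.mul {c d : Lau} {lo hi lo' hi' : ℤ} (hc : Sup c.coeff lo hi)
    (hd : Sup d.coeff lo' hi') : Sup (c * d).coeff (lo + lo') (hi + hi') := by
  rw [← conv_coeff]; exact hc.conv hd

theorem Sup.add {c d : Lau} {lo hi : ℤ} (hc : Sup c.coeff lo hi)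
    (hd : Sup d.coeff lo hi) : Sup (c + d).coeff lo hi := by
  intro n hn
  rw [coeff_add, Finsupp.add_apply] at hn
  by_cases h : c.coeff n = 0
  · rw [h, zero_add] at hn; exact hd n hn
  · exact hc n h

theorem Sup.single {j lo hi : ℤ} (x : ℂ) (h1 : lo ≤ j) (h2 : j ≤ hi) :
    Sup (single j x : Lau).coeff lo hi := by
  intro n hn
  rw [coeff_single, Finsupp.single_apply] at hn
  split_ifs at hn with h
  · omega
  · exact absurd rfl hn

theorem Sup.rotS {a : Sq} {lo hi : ℤ} (ha : Sup a lo hi) (u : Circle) : Sup (rotS u a) lo hi :=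
  fun n hn => ha n (left_ne_zero_of_mul hn)

theorem exists_sup (c : Lau) : ∃ e : ℕ, Sup c.coeff (-e) e := by
  refine ⟨c.coeff.support.sup Int.natAbs, fun n hn => ?_⟩
  have h : n.natAbs ≤ c.coeff.support.sup Int.natAbs :=
    Finset.le_sup (f := Int.natAbs) (Finsupp.mem_support_iff.mpr hn)
  omega

theorem coeff_eq_conv (c : Lau) : ⇑c.coeff = conv c ⇑(1 : Lau).coeff := by
  rw [conv_coeff, mul_one]

theorem sup_one : Sup (1 : Lau).coeff 0 0 := Sup.single 1 le_rfl le_rfl

theorem coeff_one_zero : (1 : Lau).coeff 0 = 1 := by simp [one_def]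

theorem Sup.dil {c : Lau} {e : ℕ} (hc : Sup c.coeff (-e) e) (M : ℕ) :
    Sup (dil M c).coeff (-((e * M : ℕ) : ℤ)) ((e * M : ℕ) : ℤ) := by
  intro n hn
  rw [coeff_eq_conv] at hn
  obtain ⟨j, h1, h2⟩ := conv_dil_ne_zero hn
  have h3 := hc j h1
  have h4 := sup_one _ h2
  have h5 : n = j * M := by omega
  have hM : (0 : ℤ) ≤ M := Int.natCast_nonneg M
  push_cast
  rw [h5]
  constructor <;> nlinarith [h3.1, h3.2]

theorem conv_dil_eval {M : ℤ} {q : Sq} {lo hi : ℤ} (hq : Sup q lo hi) (c : Lau) (i m : ℤ)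
    (hM : 0 < M) (h1 : i - M < lo) (h2 : hi < i + M) :
    conv (dil M c) q (i + m * M) = c.coeff m * q i := by
  rw [conv_dil, Finsupp.sum, Finset.sum_eq_single m]
  · congr 2; ring
  · intro j _ hj
    have : q (i + m * M - j * M) = 0 := by
      by_contra hne
      have h3 := hq _ hne
      rcases lt_or_gt_of_ne hj with h | h
      · have : (1 : ℤ) * M ≤ (m - j) * M := mul_le_mul_of_nonneg_right (by omega) hM.le
        nlinarith [h3.1, h3.2]
      · have : (1 : ℤ) * M ≤ (j - m) * M := mul_le_mul_of_nonneg_right (by omega) hM.le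
        nlinarith [h3.1, h3.2]
    rw [this, mul_zero]
  · intro h
    rw [Finsupp.notMem_support_iff.mp h, zero_mul]

/-- The sum of the absolute values of the coefficients. -/
def l1 (c : Lau) : ℝ := c.coeff.sum fun _ x => ‖x‖

theorem l1_nonneg (c : Lau) : 0 ≤ l1 c := Finset.sum_nonneg fun _ _ => norm_nonneg _

theorem norm_sum_le_l1 (c : Lau) (s : ℤ → ℂ) (b : ℝ) (hs : ∀ j, ‖s j‖ ≤ b) :
    ‖c.coeff.sum fun j x => x * s j‖ ≤ l1 c * b := by
  rw [l1, Finsupp.sum, Finsupp.sum, Finset.sum_mul]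
  refine (norm_sum_le _ _).trans (Finset.sum_le_sum fun j _ => ?_)
  rw [norm_mul]
  exact mul_le_mul_of_nonneg_left (hs j) (norm_nonneg _)

/-- Convolution with c has norm at most ν on bounded sequences. -/
def Bd (c : Lau) (ν : ℝ) : Prop :=
  ∀ (a : Sq) (b : ℝ), (∀ n, ‖a n‖ ≤ b) → ∀ n, ‖conv c a n‖ ≤ ν * b

theorem bd_dil_smul (M : ℤ) (c : Lau) (ε γ : ℝ) (hε : 0 ≤ ε) (hγ : l1 c ≤ γ) :
    Bd (dil M ((ε : ℂ) • c)) (ε * γ) := by
  intro a b hb n
  have hb0 : 0 ≤ b := (norm_nonneg _).trans (hb 0)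
  rw [map_smul, map_smul, LinearMap.smul_apply, Pi.smul_apply, norm_smul, conv_dil,
    Complex.norm_real, Real.norm_of_nonneg hε, mul_assoc]
  refine mul_le_mul_of_nonneg_left ?_ hε
  exact (norm_sum_le_l1 c (fun j => a (n - j * M)) b (fun j => hb _)).trans
    (mul_le_mul_of_nonneg_right hγ hb0)

theorem bd_single (j : ℤ) : Bd (single j 1) 1 := by
  intro a b hb n
  rw [conv_single, one_mul, one_mul]; exact hb _

/-- The bilinear pairing of a Laurent polynomial with a sequence. -/
def pair (Φ : Lau) (s : Sq) : ℂ := conv Φ (fun n => s (-n)) 0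

theorem pair_apply (Φ : Lau) (s : Sq) : pair Φ s = Φ.coeff.sum fun j x => x * s j := by
  rw [pair, conv_apply]; simp

theorem pair_add_left (Φ Ψ : Lau) (s : Sq) : pair (Φ + Ψ) s = pair Φ s + pair Ψ s := by
  simp [pair]

theorem pair_add_right (Φ : Lau) (s t : Sq) : pair Φ (s + t) = pair Φ s + pair Φ t := by
  have : (fun n => (s + t) (-n)) = (fun n => s (-n)) + fun n => t (-n) := rfl
  rw [pair, this, map_add]; rfl

theorem pair_single (j : ℤ) (x : ℂ) (s : Sq) : pair (single j x) s = x * s j := by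
  rw [pair, conv_single]; simp

theorem pair_congr {Φ : Lau} {s t : Sq} (h : ∀ j, Φ.coeff j ≠ 0 → s j = t j) :
    pair Φ s = pair Φ t := by
  rw [pair_apply, pair_apply]
  apply Finsupp.sum_congr
  intro j hj
  rw [h j (Finsupp.mem_support_iff.mp hj)]

theorem pair_eq_zero {Φ : Lau} {s : Sq} (h : ∀ j, Φ.coeff j ≠ 0 → s j = 0) : pair Φ s = 0 := by
  rw [pair_apply]
  apply Finset.sum_eq_zero
  intro j hj
  simp only [h j (Finsupp.mem_support_iff.mp hj), mul_zero]

theorem pair_mul_right (Φ : Lau) (s : Sq) (x : ℂ) :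
    pair Φ (fun j => s j * x) = pair Φ s * x := by
  rw [pair_apply, pair_apply, Finsupp.sum_mul]
  simp only [mul_assoc]

theorem norm_pair_le (Φ : Lau) (s : Sq) (b : ℝ) (hs : ∀ j, ‖s j‖ ≤ b) :
    ‖pair Φ s‖ ≤ l1 Φ * b := by
  rw [pair_apply]; exact norm_sum_le_l1 Φ s b hs

theorem pair_window {B lo hi : ℤ} (hB : 0 < B) (hw : hi - lo < B) {A A' : Lau}
    (hA : Sup A.coeff lo hi) (hA' : Sup A'.coeff lo hi) (X Y : Lau) :
    pair (A * dil B X) (A' * dil B Y).coeff = pair A A'.coeff * pair X Y.coeff := by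
  have h1 : pair (A * dil B X) (A' * dil B Y).coeff
      = pair A (fun a => pair X (fun m => (A' * dil B Y).coeff (a + m * B))) := by
    rw [pair, conv_mul, conv_apply, pair_apply]
    apply Finsupp.sum_congr
    intro a _
    rw [conv_dil, pair_apply]
    congr 1
    apply Finsupp.sum_congr
    intro m _
    congr 2; ring
  rw [h1, ← pair_mul_right]
  apply pair_congr
  intro a ha
  have h2 := hA a ha
  rw [mul_comm (A'.coeff a), ← pair_mul_right]
  congr 1
  funext m
  rw [mul_comm A', ← conv_coeff, conv_dil_eval hA' Y a m hB (by omega) (by omega)]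

end Pool.Agent.Lib.MP_3f635c_an
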