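import Pool.Agent.Lib.MP_3f635c_an.Analytic

/-
The symbol, its Toeplitz operator, and the failure for its square.
-/

set_option autoImplicit false

noncomputable section

namespace Pool.Agent.Lib.MP_3f635c_an

open AddMonoidAlgebra Filter Topology Metric MeasureTheory

attribute [-simp] LaurentPolynomial.single_eq_C_mul_T

abbrev CT : Type := C(UnitAddCircle, ℂ)

/-- The trigonometric polynomial of a Laurent polynomial. -/
def trig : Lau →ₐ[ℂ] CT :=
  AddMonoidAlgebra.lift ℂ CT ℤ
    { toFun := fun j => fourier j.toAdd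
      map_one' := by ext t; simp
      map_mul' := fun i j => by
        ext t
        rw [toAdd_mul, fourier_add, ContinuousMap.mul_apply] }

theorem trig_single (j : ℤ) (c : ℂ) : trig (single j c) = c • fourier j := by
  simp [trig]

theorem integrable_CT (F : CT) : Integrable F AddCircle.haarAddCircle :=
  F.continuous.integrable_of_hasCompactSupport (HasCompactSupport.of_compactSpace _)

theorem norm_fourierCoeff_le (F : CT) (n : ℤ) : ‖fourierCoeff F n‖ ≤ ‖F‖ := by
  have h := norm_integral_le_of_norm_le_const (μ := AddCircle.haarAddCircle)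
    (f := fun t : UnitAddCircle => fourier (-n) t • F t) (C := ‖F‖)
    (Eventually.of_forall fun t => by
      rw [norm_smul, fourier_apply, Circle.norm_coe, one_mul]; exact F.norm_coe_le_norm t)
  simpa [fourierCoeff] using h

/-- The Fourier coefficient as a continuous functional. -/
def fc (n : ℤ) : CT →L[ℂ] ℂ :=
  LinearMap.mkContinuous
    { toFun := fun F => fourierCoeff F n
      map_add' := fun F G =>
        congrFun (fourierCoeff.add (integrable_CT F) (integrable_CT G)) n
      map_smul' := fun c F => fourierCoeff.const_smul F c n } 1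
    (fun F => by rw [one_mul]; exact norm_fourierCoeff_le F n)

theorem fc_apply (n : ℤ) (F : CT) : fc n F = fourierCoeff F n := rfl

theorem fc_trig (n : ℤ) (c : Lau) : fc n (trig c) = c.coeff n := by
  induction c using AddMonoidAlgebra.induction_linear with
  | zero => simp
  | add x y hx hy => rw [map_add, map_add, hx, hy, coeff_add, Finsupp.add_apply]
  | single j a =>
    rw [trig_single, map_smul, fc_apply, fourierCoeff_fourier, coeff_single, Finsupp.single_apply,
      Pi.single_apply, smul_eq_mul]
    by_cases h : j = n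
    · simp [h]
    · simp [h, Ne.symm h]

theorem trig_apply (c : Lau) (t : UnitAddCircle) :
    trig c t = conv c (fun n => fourier (-n) t) 0 := by
  induction c using AddMonoidAlgebra.induction_linear with
  | zero => simp
  | add x y hx hy =>
    rw [map_add, map_add, ContinuousMap.add_apply, hx, hy, LinearMap.add_apply, Pi.add_apply]
  | single j a => rw [trig_single, conv_single, zero_sub, neg_neg]; rfl

theorem norm_trig_le {c : Lau} {ν : ℝ} (h : Bd c ν) (hν : 0 ≤ ν) : ‖trig c‖ ≤ ν := by
  rw [ContinuousMap.norm_le _ hν]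
  intro t
  have := h (fun n => fourier (-n) t) 1 (fun n => by rw [fourier_apply, Circle.norm_coe]) 0
  rwa [mul_one, ← trig_apply] at this

theorem trig_toLau (p : Polynomial ℂ) (t : UnitAddCircle) :
    trig (toLau p) t = p.eval (fourier 1 t) := by
  induction p using Polynomial.induction_on' with
  | add p q hp hq => rw [map_add, map_add, ContinuousMap.add_apply, hp, hq, Polynomial.eval_add]
  | monomial m a =>
    rw [toLau_monomial, trig_single, Polynomial.eval_monomial, ContinuousMap.smul_apply,
      smul_eq_mul]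
    congr 1
    induction m with
    | zero => simp
    | succ m ih => rw [Nat.cast_succ, fourier_add, ih, pow_succ]

theorem hasSum_eta : HasSum eta 2 := hasSum_geometric_two

theorem nu_nonneg (k : ℕ) : 0 ≤ eta k / rr k := (div_pos (eta_pos k) (rr_pos_real k)).le

theorem norm_trig_sym_le (k : ℕ) : ‖trig (sym k)‖ ≤ eta k / rr k :=
  norm_trig_le (bd_sym k) (nu_nonneg k)

theorem norm_trig_sym_le' (k : ℕ) : ‖trig (sym k)‖ ≤ eta k := by
  have h3 : (2 : ℝ) ≤ rr k := by exact_mod_cast two_le_rr k
  exact (norm_trig_sym_le k).trans (div_le_self (eta_pos k).le (by linarith))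

theorem summable_trig : Summable fun k => trig (sym k) :=
  Summable.of_norm_bounded hasSum_eta.summable norm_trig_sym_le'

/-- The symbol. -/
def ff : CT := ∑' k, trig (sym k)

theorem summable_op : Summable fun k => op _ (allowed_sym k) :=
  Summable.of_norm_bounded (E := XX →L[ℂ] XX) hasSum_eta.summable fun _ => norm_op_le _ _

/-- The Toeplitz operator of the symbol. -/
def TT : XX →L[ℂ] XX := ∑' k, op _ (allowed_sym k)

/-- The coefficient functional applied after evaluation at x. -/
def coefAt (x : XX) (n : ℤ) : (XX →L[ℂ] XX) →L[ℂ] ℂ :=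
  ((BoundedContinuousFunction.evalCLM ℂ (base (.inl n))).comp XX.subtypeL).comp
    (ContinuousLinearMap.apply ℂ XX x)

theorem coefAt_apply (x : XX) (n : ℤ) (T : XX →L[ℂ] XX) : coefAt x n T = coef (T x : XX) n := rfl

theorem coef_TT {x : XX} {P : Lau} (hx : coef x = P.coeff) (n : ℕ) :
    coef (TT x : XX) n = fc n (ff * trig P) := by
  have h1 := (coefAt x n).hasSum summable_op.hasSum
  have h2 := (fc n).hasSum (summable_trig.hasSum.mul_right (trig P))
  refine h1.unique (h2.congr_fun ?_)
  intro k
  rw [coefAt_apply, coef_op, hx, ← map_mul, fc_trig]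
  simp only [Let.act, toe, proj, conv_coeff, Int.natCast_nonneg, if_true]

theorem toeplitz_ff (p : Polynomial ℂ) (x : XX)
    (hx : ∀ w ∈ ball (0 : ℂ) 1, iota x w = p.eval w) (w : ℂ) (hw : w ∈ ball (0 : ℂ) 1) :
    HasSum (fun k : ℕ =>
      fourierCoeff (fun t : UnitAddCircle => ff t * p.eval (fourier 1 t)) k * w ^ k)
      (iota (TT x) w) := by
  refine (hasSum_iota (TT x) hw).congr_fun fun k => ?_
  rw [coef_TT (coef_of_iota_poly hx), fc_apply]
  congr 2
  funext t
  rw [ContinuousMap.mul_apply, trig_toLau]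

theorem norm_ff_le : ‖ff‖ ≤ 2 :=
  summable_trig.hasSum.norm_le_of_bounded hasSum_eta norm_trig_sym_le'

theorem norm_trig_psum_le (k : ℕ) : ‖trig (psum k)‖ ≤ 2 := by
  rw [psum, map_sum]
  refine (norm_sum_le _ _).trans ((Finset.sum_le_sum fun j _ => norm_trig_sym_le' j).trans ?_)
  exact sum_le_hasSum _ (fun j _ => (eta_pos j).le) hasSum_eta

theorem norm_tail_le (k : ℕ) : ‖ff - trig (psum (k + 1))‖ ≤ 2 / (rr k : ℝ) ^ 3 := by
  have h1 := (hasSum_nat_add_iff' (k + 1)).mpr summable_trig.hasSum
  have hr : (0 : ℝ) < (rr k : ℝ) ^ 3 := pow_pos (rr_pos_real k) 3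
  rw [psum, map_sum]
  refine h1.norm_le_of_bounded (hasSum_eta.div_const ((rr k : ℝ) ^ 3)) fun j => ?_
  refine (norm_trig_sym_le _).trans ?_
  have a1 : (rr k : ℝ) ^ 3 ≤ rr (j + (k + 1)) := by
    exact_mod_cast rr_cube_le (by omega)
  have a2 : eta (j + (k + 1)) ≤ eta j :=
    pow_le_pow_of_le_one (by norm_num) (by norm_num) (by omega)
  exact div_le_div₀ (eta_pos j).le a2 hr a1

theorem not_toeplitz_sq (T : XX →L[ℂ] XX) :
    ¬ ∀ (p : Polynomial ℂ) (x : XX), (∀ w ∈ ball (0 : ℂ) 1, iota x w = p.eval w) →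
      ∀ w ∈ ball (0 : ℂ) 1, HasSum (fun k : ℕ =>
        fourierCoeff (fun t : UnitAddCircle => (ff t * ff t) * p.eval (fourier 1 t)) k * w ^ k)
        (iota (T x) w) := by
  intro h
  obtain ⟨x, hx⟩ := exists_iota_poly 1
  have h1 := coeff_unique (fun w hw => hasSum_iota (T x) hw) (h 1 x hx)
  set y : XX := T x
  have h2 : ∀ n : ℕ, coef y n = fc n (ff * ff) := by
    intro n
    rw [congrFun h1 n, fc_apply]
    congr 1
    funext t
    rw [Polynomial.eval_one, mul_one, ContinuousMap.mul_apply]
  have main : ∀ k : ℕ, (k : ℝ) + 1 ≤ ‖(y : Big)‖ + 8 := by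
    intro k
    have hr : (0 : ℝ) < (rr k : ℝ) ^ 3 := pow_pos (rr_pos_real k) 3
    set s := psum (k + 1)
    have b1 : ‖fn (.inr k) (coef y)‖ ≤ ‖(y : Big)‖ := by
      rw [← ell_base, ← good_of_mem y.2]
      exact BoundedContinuousFunction.norm_coe_le_norm _ _
    have b2 : fn (.inr k) (coef y) = fn (.inr k) (fun n => fc n (ff * ff)) := by
      simp only [fn, phi]
      congr 1
      apply pair_congr
      intro j hj
      have j1 := (ph_supp _ j hj).1
      have : (0 : ℤ) ≤ j * MM k := mul_nonneg (by omega) (Int.natCast_nonneg _)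
      obtain ⟨m, hm⟩ := Int.eq_ofNat_of_zero_le this
      rw [hm]; exact h2 m
    have b3 : (fun n => fc n (ff * ff))
        = ⇑(s * s).coeff + fun n => fc n ((ff - trig s) * (ff + trig s)) := by
      funext n
      rw [Pi.add_apply, ← fc_trig, ← map_add, map_mul trig]
      congr 1; ring
    have b4 : ∀ n, ‖fc n ((ff - trig s) * (ff + trig s))‖ ≤ 8 / (rr k : ℝ) ^ 3 := by
      intro n
      refine (norm_fourierCoeff_le _ n).trans ((norm_mul_le _ _).trans ?_)
      have c1 : ‖ff + trig s‖ ≤ 4 := by
        have := norm_add_le ff (trig s)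
        have := norm_ff_le
        have := norm_trig_psum_le (k + 1)
        linarith
      have c2 := mul_le_mul (norm_tail_le k) c1 (norm_nonneg _) (by positivity)
      refine c2.trans (le_of_eq ?_)
      ring
    have b5 : ‖fn (.inr k) (fun n => fc n ((ff - trig s) * (ff + trig s)))‖ ≤ 8 := by
      refine (norm_phi_le _ _ (AA_nonneg k) _ _ b4).trans ?_
      calc AA k * l1 (ph (NN k)) * (8 / (rr k : ℝ) ^ 3)
          ≤ (rr k : ℝ) ^ 3 * (8 / (rr k : ℝ) ^ 3) :=
            mul_le_mul_of_nonneg_right (AA_mul_l1 k) (by positivity)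
        _ = 8 := mul_div_cancel₀ _ hr.ne'
    have b6 : fn (.inr k) (s * s).coeff = k + 1 := phi_psum_sq k
    rw [b2, b3, fn_add, b6] at b1
    have b7 : ‖((k : ℂ) + 1)‖ = k + 1 := by
      have : ((k : ℂ) + 1) = ((k + 1 : ℕ) : ℂ) := by push_cast; ring
      rw [this, Complex.norm_natCast]; push_cast; ring
    have b8 := norm_sub_le ((k : ℂ) + 1 + fn (.inr k)
      (fun n => fc n ((ff - trig s) * (ff + trig s))))
      (fn (.inr k) (fun n => fc n ((ff - trig s) * (ff + trig s))))
    rw [add_sub_cancel_right, b7] at b8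
    linarith
  obtain ⟨k, hk⟩ := exists_nat_gt (‖(y : Big)‖ + 8)
  have := main k
  linarith

theorem memLp_CT (F : CT) : MemLp F ⊤ AddCircle.haarAddCircle :=
  memLp_top_of_bound F.continuous.aestronglyMeasurable ‖F‖
    (Eventually.of_forall fun t => F.norm_coe_le_norm t)

end Pool.Agent.Lib.MP_3f635c_an
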