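import Pool.Agent.Lib.MP_3f635c_an.Key

/-
The choice of the scales.
-/

set_option autoImplicit false

noncomputable section

namespace Pool.Agent.Lib.MP_3f635c_an

open AddMonoidAlgebra

attribute [-simp] LaurentPolynomial.single_eq_C_mul_T

def mm (k : ℕ) : ℕ := 2 * (k + 1) * 4 ^ k

def NN (k : ℕ) : ℕ := mm k ^ 2

def eta (k : ℕ) : ℝ := (1 / 2) ^ k

def gam (k : ℕ) : ℕ := ⌈l1 (gg (NN k))⌉₊ + 1

def sig (k : ℕ) : ℕ := ⌈l1 (ph (NN k))⌉₊

def deg (k : ℕ) : ℕ := (exists_sup (gg (NN k))).choose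

def rr : ℕ → ℕ
  | 0 => 2 + gam 0 ^ 2 * sig 0
  | k + 1 => rr k ^ 3 + 2 + gam (k + 1) ^ 2 * sig (k + 1)

def DD : ℕ → ℕ
  | 0 => 1
  | k + 1 => DD k + deg k * (3 * DD k * rr k ^ 3)

def MM (k : ℕ) : ℕ := 3 * DD k * rr k ^ 3

def eps (k : ℕ) : ℝ := eta k / (rr k * gam k)

def AA (k : ℕ) : ℝ := ((rr k : ℝ) * gam k) ^ 2 / (2 * mm k)

theorem mm_pos (k : ℕ) : 0 < mm k := by unfold mm; positivity

theorem eta_pos (k : ℕ) : 0 < eta k := by unfold eta; positivity

theorem gam_pos (k : ℕ) : 0 < gam k := Nat.succ_pos _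

theorem two_le_rr (k : ℕ) : 2 ≤ rr k := by cases k <;> simp only [rr] <;> omega

theorem rr_ge (k : ℕ) : gam k ^ 2 * sig k ≤ rr k := by cases k <;> simp only [rr] <;> omega

theorem rr_mono : Monotone rr := by
  apply monotone_nat_of_le_succ
  intro k
  have : rr k ≤ rr k ^ 3 := Nat.le_self_pow (by norm_num) _
  simp only [rr]; omega

theorem rr_cube_le {k j : ℕ} (h : k < j) : rr k ^ 3 ≤ rr j := by
  refine le_trans ?_ (rr_mono (Nat.succ_le_of_lt h))
  simp only [rr]; omega

theorem DD_mono : Monotone DD := by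
  apply monotone_nat_of_le_succ
  intro k
  simp only [DD]; omega

theorem DD_pos (k : ℕ) : 0 < DD k := DD_mono (Nat.zero_le k)

theorem deg_le_DD {j k : ℕ} (h : j < k) : deg j * MM j ≤ DD k := by
  refine le_trans ?_ (DD_mono (Nat.succ_le_of_lt h))
  simp only [DD, MM]; omega

theorem two_DD_lt (k : ℕ) : 2 * DD k < MM k := by
  have h1 := DD_pos k
  have h2 : 1 ≤ rr k ^ 3 := Nat.one_le_pow _ _ (by have := two_le_rr k; omega)
  unfold MM; nlinarith

theorem rr_pos_real (k : ℕ) : (0 : ℝ) < rr k := by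
  have := two_le_rr k
  exact_mod_cast (by omega : 0 < rr k)

theorem eps_pos (k : ℕ) : 0 < eps k := by
  have h1 := rr_pos_real k
  have h2 : (0 : ℝ) < gam k := by exact_mod_cast gam_pos k
  have h3 := eta_pos k
  unfold eps; positivity

theorem eps_mul_gam (k : ℕ) : eps k * gam k = eta k / rr k := by
  have h1 := rr_pos_real k
  have h2 : (0 : ℝ) < gam k := by exact_mod_cast gam_pos k
  unfold eps; field_simp

theorem AA_mul_eps_sq (k : ℕ) : AA k * eps k ^ 2 = eta k ^ 2 / (2 * mm k) := by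
  have h1 := rr_pos_real k
  have h2 : (0 : ℝ) < gam k := by exact_mod_cast gam_pos k
  have h3 : (0 : ℝ) < mm k := by exact_mod_cast mm_pos k
  unfold eps AA; field_simp

theorem AA_nonneg (k : ℕ) : 0 ≤ AA k := by unfold AA; positivity

theorem AA_mul_l1 (k : ℕ) : AA k * l1 (ph (NN k)) ≤ (rr k : ℝ) ^ 3 := by
  have h1 := rr_pos_real k
  have h3 : (1 : ℝ) ≤ mm k := by exact_mod_cast mm_pos k
  have h4 : l1 (ph (NN k)) ≤ sig k := Nat.le_ceil _
  have h5 : (gam k : ℝ) ^ 2 * sig k ≤ rr k := by exact_mod_cast rr_ge k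
  have h6 : AA k ≤ ((rr k : ℝ) * gam k) ^ 2 := by
    unfold AA
    apply div_le_self (by positivity); linarith
  have h7 := l1_nonneg (ph (NN k))
  calc AA k * l1 (ph (NN k)) ≤ ((rr k : ℝ) * gam k) ^ 2 * sig k :=
        mul_le_mul h6 h4 h7 (by positivity)
    _ = (rr k : ℝ) ^ 2 * ((gam k : ℝ) ^ 2 * sig k) := by ring
    _ ≤ (rr k : ℝ) ^ 2 * rr k := by gcongr
    _ = (rr k : ℝ) ^ 3 := by ring

/-- The data of scale k. -/
def par (k : ℕ) : Par where
  N := NN k
  M := MM k
  D := DD k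
  ε := eps k
  η := eta k
  A := AA k
  a := (rr k : ℝ) ^ 3
  γ := gam k
  hD := DD_pos k
  hε := (eps_pos k).le
  hA := AA_nonneg k
  ha := by
    have : (2 : ℝ) ≤ rr k := by exact_mod_cast two_le_rr k
    exact one_le_pow₀ (by linarith)
  hγ := by
    have : l1 (gg (NN k)) ≤ ⌈l1 (gg (NN k))⌉₊ := Nat.le_ceil _
    unfold gam; push_cast; linarith
  hσ := AA_mul_l1 k
  h1 := by
    rw [eps_mul_gam]
    have : (2 : ℝ) ≤ rr k := by exact_mod_cast two_le_rr k
    exact div_le_self (eta_pos k).le (by linarith)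
  h3 := by
    rw [eps_mul_gam]
    have := rr_pos_real k
    apply le_of_eq; field_simp
  h2 := by
    rw [AA_mul_eps_sq]
    have h3 : (0 : ℝ) < mm k := by exact_mod_cast mm_pos k
    have : Real.sqrt (NN k) = mm k := by
      unfold NN; push_cast; exact Real.sqrt_sq h3.le
    rw [this]
    apply le_of_eq; field_simp
  hM := by
    unfold MM; push_cast
    have : (0 : ℝ) ≤ (DD k : ℝ) * (rr k : ℝ) ^ 3 := by positivity
    linarith

/-- The symbol of scale k. -/
def sym (k : ℕ) : Lau := keySym (NN k) (MM k) (eps k)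

theorem bd_sym (k : ℕ) : Bd (sym k) (eta k / rr k) := by
  rw [← eps_mul_gam]; exact (par k).bd_key

theorem sup_sym (k : ℕ) :
    Sup (sym k).coeff (-((deg k * MM k : ℕ) : ℤ)) ((deg k * MM k : ℕ) : ℤ) := by
  apply Sup.dil
  intro j hj
  apply (exists_sup (gg (NN k))).choose_spec j
  intro h0
  apply hj
  rw [coeff_smul_apply, h0, smul_zero]

/-- The letters that are used. -/
def Allowed (l : Let) : Prop :=
  (∃ u, l = .rot u) ∨ (∃ j : ℤ, l = .toe (single j 1) (j.natAbs + 1)) ∨
    ∃ k, l = .toe (sym k) (eta k)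

theorem Allowed.ok {l : Let} (h : Allowed l) (k : ℕ) : (par k).OK l := by
  rcases h with ⟨u, rfl⟩ | ⟨j, rfl⟩ | ⟨j, rfl⟩
  · trivial
  · refine Or.inl ⟨j.natAbs, 1, zero_le_one, Sup.single _ (by omega) (by omega), bd_single j, ?_⟩
    have h1 : (1 : ℝ) ≤ (par k).D := by exact_mod_cast DD_pos k
    have h2 : (j.natAbs : ℝ) / (par k).D ≤ j.natAbs := div_le_self (by positivity) h1
    linarith
  · have hr := rr_pos_real j
    have he := eta_pos j
    rcases lt_trichotomy j k with h | rfl | h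
    · refine Or.inl ⟨deg j * MM j, eta j / rr j, by positivity, sup_sym j, bd_sym j, ?_⟩
      have h1 : (0 : ℝ) < (par k).D := by exact_mod_cast DD_pos k
      have h2 : ((deg j * MM j : ℕ) : ℝ) / (par k).D ≤ 1 := by
        rw [div_le_one h1]; exact_mod_cast deg_le_DD h
      have h3 : (2 : ℝ) ≤ rr j := by exact_mod_cast two_le_rr j
      calc eta j / rr j * (1 + ((deg j * MM j : ℕ) : ℝ) / (par k).D)
          ≤ eta j / rr j * rr j := by gcongr; linarith
        _ = eta j := by field_simp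
    · exact Or.inr (Or.inr ⟨rfl, rfl⟩)
    · refine Or.inr (Or.inl ⟨eta j / rr j, by positivity, bd_sym j, ?_⟩)
      have h3 : (par k).a ≤ rr j := by
        change (rr k : ℝ) ^ 3 ≤ rr j
        exact_mod_cast rr_cube_le h
      calc eta j / rr j * (par k).a ≤ eta j / rr j * rr j := by gcongr
        _ = eta j := by field_simp

theorem Allowed.wt_pos {l : Let} (h : Allowed l) : 0 < l.wt := by
  rcases h with ⟨u, rfl⟩ | ⟨j, rfl⟩ | ⟨j, rfl⟩
  · exact one_pos
  · simp only [Let.wt]; positivity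
  · exact eta_pos j

theorem Allowed.norm_act_le {l : Let} (h : Allowed l) {s : Sq} {b : ℝ} (hb : ∀ n, ‖s n‖ ≤ b)
    (n : ℤ) : ‖l.act s n‖ ≤ l.wt * b := by
  have hb0 : 0 ≤ b := (norm_nonneg _).trans (hb 0)
  rcases h with ⟨u, rfl⟩ | ⟨j, rfl⟩ | ⟨j, rfl⟩
  · simp only [Let.act, Let.wt, norm_rotS, one_mul]; exact hb n
  · refine (norm_toe_le (bd_single j) zero_le_one hb n).trans ?_
    simp only [Let.wt]
    have : (0 : ℝ) ≤ j.natAbs := by positivity
    nlinarith
  · have hr := rr_pos_real j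
    have he := eta_pos j
    refine (norm_toe_le (bd_sym j) (by positivity) hb n).trans ?_
    simp only [Let.wt]
    have h3 : (2 : ℝ) ≤ rr j := by exact_mod_cast two_le_rr j
    exact mul_le_mul_of_nonneg_right (div_le_self he.le (by linarith)) hb0

theorem wwt_pos {W : List Let} (hW : ∀ l ∈ W, Allowed l) : 0 < wwt W := by
  induction W with
  | nil => simp [wwt]
  | cons l W ih =>
    rw [wwt_cons]
    exact mul_pos (hW l List.mem_cons_self).wt_pos (ih fun l' h => hW l' (List.mem_cons_of_mem _ h))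

theorem norm_wact_le {W : List Let} (hW : ∀ l ∈ W, Allowed l) (n : ℤ) :
    ‖wact W (1 : Lau).coeff n‖ ≤ wwt W := by
  induction W generalizing n with
  | nil => simpa [wact, wwt] using norm_one_coeff_le n
  | cons l W ih =>
    rw [wact_cons, wwt_cons]
    exact (hW l List.mem_cons_self).norm_act_le
      (fun m => ih (fun l' h => hW l' (List.mem_cons_of_mem _ h)) m) n

/-- The test functionals: coefficients and the functionals of the scales. -/
def fn : ℤ ⊕ ℕ → Sq → ℂ
  | .inl n, s => s n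
  | .inr k, s => phi (NN k) (MM k) (AA k) s

theorem norm_fn_wact_le (ψ : ℤ ⊕ ℕ) {W : List Let} (hW : ∀ l ∈ W, Allowed l) :
    ‖fn ψ (wact W (1 : Lau).coeff)‖ ≤ wwt W := by
  cases ψ with
  | inl n => exact norm_wact_le hW n
  | inr k => exact (par k).key_estimate W fun l hl => (hW l hl).ok k

/-- The partial sums of the symbol. -/
def psum (k : ℕ) : Lau := ∑ j ∈ Finset.range k, sym j

theorem sup_psum {j k : ℕ} (h : j ≤ k) : Sup (psum j).coeff (-(DD k : ℤ)) (DD k) := by
  induction j with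
  | zero => intro n hn; simp [psum] at hn
  | succ j ih =>
    rw [psum, Finset.sum_range_succ]
    refine Sup.add (ih (by omega)) ((sup_sym j).mono ?_ ?_)
    · have := deg_le_DD (show j < k by omega); omega
    · have := deg_le_DD (show j < k by omega); omega

theorem phi_psum_sq (k : ℕ) :
    phi (NN k) (MM k) (AA k) (psum (k + 1) * psum (k + 1)).coeff = k + 1 := by
  have hD := two_DD_lt k
  have hD' : 2 * (DD k : ℤ) < MM k := by exact_mod_cast hD
  have hD0 : (0 : ℤ) ≤ DD k := Int.natCast_nonneg _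
  have hs := sup_psum (le_refl k)
  have e : psum (k + 1) * psum (k + 1)
      = dil (MM k) 1 * (psum k * psum k)
        + dil (MM k) ((eps k : ℂ) • gg (NN k)) * (psum k + psum k)
        + dil (MM k) ((eps k : ℂ) ^ 2 • (gg (NN k) * gg (NN k))) * 1 := by
    have e1 : psum (k + 1) = psum k + dil (MM k) ((eps k : ℂ) • gg (NN k)) := by
      rw [psum, Finset.sum_range_succ]; rfl
    rw [e1, pow_two, ← smul_mul_smul_comm, map_mul, map_one]; ring
  have ev : ∀ (c q : Lau), Sup q.coeff (-(2 * DD k)) (2 * DD k) → ∀ m : ℤ,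
      (dil (MM k) c * q).coeff (m * MM k) = c.coeff m * q.coeff 0 := by
    intro c q hq m
    have := conv_dil_eval hq c 0 m (M := MM k) (by omega) (by omega) (by omega)
    rw [zero_add, conv_coeff] at this
    exact this
  have e2 : pair (ph (NN k)) (fun m => (psum (k + 1) * psum (k + 1)).coeff (m * MM k))
      = pair (ph (NN k)) (gg (NN k) * gg (NN k)).coeff * (eps k : ℂ) ^ 2 := by
    rw [← pair_mul_right]
    apply pair_congr
    intro j hj
    have j1 := ph_supp _ j hj
    rw [e, coeff_add, coeff_add, Finsupp.add_apply, Finsupp.add_apply,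
      ev _ _ ((hs.mul hs).mono (by omega) (by omega)),
      ev _ _ ((hs.add hs).mono (by omega) (by omega)),
      ev _ _ (sup_one.mono (by omega) (by omega)), coeff_one_zero]
    have z1 : (1 : Lau).coeff j = 0 := by
      by_contra hne
      have := sup_one j hne
      omega
    have z2 : (gg (NN k)).coeff j = 0 := by
      by_contra hne
      have := gg_supp _ j hne
      omega
    rw [z1, coeff_smul_apply, coeff_smul_apply, z2, smul_eq_mul, smul_eq_mul]; ring
  rw [phi, e2, pair_gg_gg]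
  have h1 := AA_mul_eps_sq k
  have h3 : (0 : ℝ) < mm k := by exact_mod_cast mm_pos k
  have h4 : AA k * ((NN k : ℝ) * eps k ^ 2) = k + 1 := by
    rw [mul_comm (NN k : ℝ), ← mul_assoc, h1]
    have h5 : eta k ^ 2 * 4 ^ k = 1 := by
      unfold eta
      rw [← pow_mul, mul_comm k 2, pow_mul, ← mul_pow]; norm_num
    have h6 : (mm k : ℝ) = 2 * (k + 1) * 4 ^ k := by unfold mm; push_cast; ring
    have h7 : (NN k : ℝ) = mm k * mm k := by unfold NN; push_cast; ring
    rw [h7]
    field_simp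
    rw [h6]
    linear_combination (2 * (k + 1)) * h5
  exact_mod_cast h4

end Pool.Agent.Lib.MP_3f635c_an
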