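import Pool.Agent.Lib.MP_3f635c_an.Laurent

/-
The multiscale trigonometric polynomials.
-/

set_option autoImplicit false

noncomputable section

namespace Pool.Agent.Lib.MP_3f635c_an

open AddMonoidAlgebra

attribute [-simp] LaurentPolynomial.single_eq_C_mul_T

def kap : Lau := single 0 1 + single 3 1

def kphi : Lau := single 0 (1 / 4) + single 3 (1 / 4) + single 6 (1 / 4)

def lphi : Lau := single 1 1 + single 4 (-1)

/-- The analytic part of the symbol. -/
def gp : ℕ → Lau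
  | 0 => 0
  | n + 1 => single 2 1 + kap * dil 10 (gp n)

/-- The antianalytic part of the symbol. -/
def gm : ℕ → Lau
  | 0 => 0
  | n + 1 => single (-1) 1 + kap * dil 10 (gm n)

/-- The symbol. -/
def gg (n : ℕ) : Lau := gp n + gm n

/-- The test functional. -/
def ph : ℕ → Lau
  | 0 => 0
  | n + 1 => lphi + kphi * dil 10 (ph n)

theorem gg_succ (n : ℕ) :
    gg (n + 1) = (single (-1) 1 + single 2 1) + kap * dil 10 (gg n) := by
  simp only [gg, gp, gm, map_add]; ring

theorem coeff_add_ne_zero {c d : Lau} {j : ℤ} (h : (c + d).coeff j ≠ 0) :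
    c.coeff j ≠ 0 ∨ d.coeff j ≠ 0 := by
  by_contra hc
  push Not at hc
  rw [coeff_add, Finsupp.add_apply, hc.1, hc.2, add_zero] at h
  exact h rfl

theorem coeff_single_ne_zero {i j : ℤ} {x : ℂ} (h : (single i x : Lau).coeff j ≠ 0) : j = i := by
  have := Sup.single (j := i) x le_rfl le_rfl j h
  omega

theorem coeff_mul_dil_ne_zero {A X : Lau} {B j : ℤ} (h : (A * dil B X).coeff j ≠ 0) :
    ∃ i m, A.coeff i ≠ 0 ∧ X.coeff m ≠ 0 ∧ j = i + m * B := by
  rw [mul_comm, ← conv_coeff] at h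
  obtain ⟨m, h1, h2⟩ := conv_dil_ne_zero h
  exact ⟨_, m, h2, h1, by ring⟩

theorem kap_supp {j : ℤ} (h : kap.coeff j ≠ 0) : j = 0 ∨ j = 3 :=
  (coeff_add_ne_zero h).imp coeff_single_ne_zero coeff_single_ne_zero

theorem lphi_supp {j : ℤ} (h : lphi.coeff j ≠ 0) : j = 1 ∨ j = 4 :=
  (coeff_add_ne_zero h).imp coeff_single_ne_zero coeff_single_ne_zero

theorem kphi_supp {j : ℤ} (h : kphi.coeff j ≠ 0) : j = 0 ∨ j = 3 ∨ j = 6 := by
  rcases coeff_add_ne_zero h with h | h
  · rcases coeff_add_ne_zero h with h | h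
    · exact Or.inl (coeff_single_ne_zero h)
    · exact Or.inr (Or.inl (coeff_single_ne_zero h))
  · exact Or.inr (Or.inr (coeff_single_ne_zero h))

theorem gp_supp (n : ℕ) : ∀ j, (gp n).coeff j ≠ 0 → 1 ≤ j ∧ j % 3 = 2 := by
  induction n with
  | zero => intro j h; simp [gp] at h
  | succ n ih =>
    intro j h
    rcases coeff_add_ne_zero h with h | h
    · have := coeff_single_ne_zero h; omega
    · obtain ⟨i, m, h1, h2, rfl⟩ := coeff_mul_dil_ne_zero h
      have := kap_supp h1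
      have := ih m h2
      omega

theorem gm_supp (n : ℕ) : ∀ j, (gm n).coeff j ≠ 0 → j ≤ -1 ∧ j % 3 = 2 := by
  induction n with
  | zero => intro j h; simp [gm] at h
  | succ n ih =>
    intro j h
    rcases coeff_add_ne_zero h with h | h
    · have := coeff_single_ne_zero h; omega
    · obtain ⟨i, m, h1, h2, rfl⟩ := coeff_mul_dil_ne_zero h
      have := kap_supp h1
      have := ih m h2
      omega

theorem gg_supp (n : ℕ) (j : ℤ) (h : (gg n).coeff j ≠ 0) : j % 3 = 2 := by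
  rcases coeff_add_ne_zero h with h | h
  · exact (gp_supp n j h).2
  · exact (gm_supp n j h).2

theorem ph_supp (n : ℕ) : ∀ j, (ph n).coeff j ≠ 0 → 1 ≤ j ∧ j % 3 = 1 := by
  induction n with
  | zero => intro j h; simp [ph] at h
  | succ n ih =>
    intro j h
    rcases coeff_add_ne_zero h with h | h
    · have := lphi_supp h; omega
    · obtain ⟨i, m, h1, h2, rfl⟩ := coeff_mul_dil_ne_zero h
      have := kphi_supp h1
      have := ih m h2
      omega

theorem pair_two_level {A0 A1 B0 B1 : Lau} (X Y P : Lau)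
    (h00 : Sup (A0 * B0).coeff (-2) 6) (h01 : Sup (A0 * B1).coeff (-2) 6)
    (h10 : Sup (A1 * B0).coeff (-2) 6) (h11 : Sup (A1 * B1).coeff (-2) 6)
    (z1 : pair lphi (A0 * B1).coeff = 0) (z2 : pair lphi (A1 * B0).coeff = 0)
    (z3 : pair lphi (A1 * B1).coeff = 0) (z4 : pair kphi (A0 * B0).coeff = 0)
    (z5 : pair kphi (A0 * B1).coeff = 0) (z6 : pair kphi (A1 * B0).coeff = 0) :
    pair (lphi + kphi * dil 10 P) ((A0 + A1 * dil 10 X) * (B0 + B1 * dil 10 Y)).coeff
      = pair lphi (A0 * B0).coeff + pair kphi (A1 * B1).coeff * pair P (X * Y).coeff := by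
  have e1 : (A0 + A1 * dil 10 X) * (B0 + B1 * dil 10 Y)
      = (A0 * B0) * dil 10 1 + (A0 * B1) * dil 10 Y + (A1 * B0) * dil 10 X
        + (A1 * B1) * dil 10 (X * Y) := by
    rw [map_one, map_mul]; ring
  have e2 : lphi + kphi * dil 10 P = lphi * dil 10 1 + kphi * dil 10 P := by
    rw [map_one, mul_one]
  have sl : Sup lphi.coeff (-2) 6 := fun j h => by have := lphi_supp h; omega
  have sk : Sup kphi.coeff (-2) 6 := fun j h => by have := kphi_supp h; omega
  have w : ∀ {A A' : Lau}, Sup A.coeff (-2) 6 → Sup A'.coeff (-2) 6 → ∀ X Y : Lau,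
      pair (A * dil 10 X) (A' * dil 10 Y).coeff = pair A A'.coeff * pair X Y.coeff :=
    fun hA hA' X Y => pair_window (by norm_num) (by norm_num) hA hA' X Y
  have one : pair 1 (1 : Lau).coeff = 1 := by
    rw [one_def, pair_single, ← one_def, coeff_one_zero, mul_one]
  rw [e1, e2]
  simp only [coeff_add, Finsupp.coe_add, pair_add_left, pair_add_right]
  rw [w sl h00, w sl h01, w sl h10, w sl h11, w sk h00, w sk h01, w sk h10, w sk h11,
    z1, z2, z3, z4, z5, z6, one]
  ring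

theorem pair_lphi (s : Sq) : pair lphi s = s 1 - s 4 := by
  rw [lphi, pair_add_left, pair_single, pair_single]; ring

theorem pair_kphi (s : Sq) : pair kphi s = (s 0 + s 3 + s 6) / 4 := by
  rw [kphi, pair_add_left, pair_add_left, pair_single, pair_single, pair_single]; ring

theorem two_level_explicit (a b c a' b' c' : ℂ) (X Y P : Lau) :
    pair (lphi + kphi * dil 10 P)
      (((single (-1) a + single 2 b) + (single 0 1 + single 3 c) * dil 10 X) *
        ((single (-1) a' + single 2 b') + (single 0 1 + single 3 c') * dil 10 Y)).coeff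
      = (a * b' + b * a' - b * b') + ((1 + c) * (1 + c') / 4) * pair P (X * Y).coeff := by
  rw [pair_two_level]
  · simp [pair_lphi, pair_kphi, add_mul, mul_add, single_mul_single]
    ring
  all_goals
    first
    | (simp only [add_mul, mul_add, single_mul_single]
       refine Sup.add (Sup.add ?_ ?_) (Sup.add ?_ ?_) <;>
         exact Sup.single _ (by norm_num) (by norm_num))
    | simp [pair_lphi, pair_kphi, add_mul, mul_add, single_mul_single]

theorem pair_gg_gg (n : ℕ) : pair (ph n) (gg n * gg n).coeff = n := by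
  induction n with
  | zero => simp [ph, pair]
  | succ n ih =>
    rw [gg_succ, ph, kap, two_level_explicit, ih]
    push_cast; ring

theorem rot_gg_succ (u : Circle) (n : ℕ) :
    rot u (gg (n + 1)) = (single (-1) ((u⁻¹ : Circle) : ℂ) + single 2 ((u : ℂ) ^ 2)) +
      (single 0 1 + single 3 ((u : ℂ) ^ 3)) * dil 10 (rot (u ^ (10 : ℤ)) (gg n)) := by
  rw [gg_succ, kap]
  simp only [map_add, map_mul, rot_single, rot_dil]
  simp

theorem rot_gp_succ (u : Circle) (n : ℕ) :
    rot u (gp (n + 1)) = (single (-1) 0 + single 2 ((u : ℂ) ^ 2)) +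
      (single 0 1 + single 3 ((u : ℂ) ^ 3)) * dil 10 (rot (u ^ (10 : ℤ)) (gp n)) := by
  rw [gp, kap]
  simp only [map_add, map_mul, rot_single, rot_dil]
  simp

theorem norm_pair_rot (n : ℕ) : ∀ u v : Circle,
    ‖pair (ph n) (rot u (gg n) * rot v (gp n)).coeff‖ ≤ 2 * Real.sqrt n := by
  induction n with
  | zero => intro u v; simp [ph, pair]
  | succ n ih =>
    intro u v
    rw [rot_gg_succ, rot_gp_succ, ph, two_level_explicit]
    have h := ih (u ^ (10 : ℤ)) (v ^ (10 : ℤ))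
    set F := pair (ph n) (rot (u ^ (10 : ℤ)) (gg n) * rot (v ^ (10 : ℤ)) (gp n)).coeff
    have hu : ‖(u : ℂ)‖ = 1 := Circle.norm_coe u
    have hv : ‖(v : ℂ)‖ = 1 := Circle.norm_coe v
    have hu0 : (u : ℂ) ≠ 0 := Circle.coe_ne_zero u
    set w : ℂ := (u : ℂ) ^ 3 with hw
    have hw1 : ‖w‖ = 1 := by rw [hw, norm_pow, hu, one_pow]
    have e1 : ((u⁻¹ : Circle) : ℂ) * (v : ℂ) ^ 2 + (u : ℂ) ^ 2 * 0 - (u : ℂ) ^ 2 * (v : ℂ) ^ 2
        = ((u : ℂ)⁻¹ * (v : ℂ) ^ 2) * (1 - w) := by
      rw [Circle.coe_inv, hw]; field_simp; ring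
    have n1 : ‖((u : ℂ)⁻¹ * (v : ℂ) ^ 2) * (1 - w)‖ = ‖1 - w‖ := by
      rw [norm_mul, norm_mul, norm_inv, norm_pow, hu, hv]; simp
    have n2 : ‖(1 + (v : ℂ) ^ 3)‖ ≤ 2 := by
      refine (norm_add_le _ _).trans ?_
      rw [norm_pow, hv, norm_one]; norm_num
    have n3 : ‖(1 + w) * (1 + (v : ℂ) ^ 3) / 4 * F‖ ≤ ‖1 + w‖ * Real.sqrt n := by
      rw [norm_mul, norm_div, norm_mul]
      have h4 : ‖(4 : ℂ)‖ = 4 := by simp
      rw [h4]
      have hs := Real.sqrt_nonneg (n : ℝ)
      have a1 : ‖(1 + (v : ℂ) ^ 3)‖ * ‖F‖ ≤ 2 * (2 * Real.sqrt n) :=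
        mul_le_mul n2 h (norm_nonneg _) (by norm_num)
      have a2 := mul_le_mul_of_nonneg_left a1 (norm_nonneg (1 + w))
      nlinarith
    have par : ‖1 - w‖ ^ 2 + ‖1 + w‖ ^ 2 = 4 := by
      have := parallelogram_law_with_norm ℂ (1 : ℂ) w
      rw [hw1, norm_one] at this
      nlinarith
    rw [e1]
    refine (norm_add_le _ _).trans ?_
    rw [n1]
    refine (add_le_add_right n3 _).trans ?_
    have s1 : Real.sqrt n ^ 2 = n := Real.sq_sqrt (Nat.cast_nonneg n)
    have s2 : Real.sqrt ((n + 1 : ℕ) : ℝ) ^ 2 = n + 1 := by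
      rw [Real.sq_sqrt (Nat.cast_nonneg _)]; push_cast; ring
    apply abs_le_of_sq_le_sq' _ (by positivity) |>.2
    set x := ‖1 - w‖
    set y := ‖1 + w‖
    set s := Real.sqrt n
    have : (2 * Real.sqrt ((n + 1 : ℕ) : ℝ)) ^ 2 = (x ^ 2 + y ^ 2) * (1 + s ^ 2) := by
      rw [mul_pow, s2, par, s1]; ring
    rw [this]
    nlinarith [sq_nonneg (x * s - y)]

end Pool.Agent.Lib.MP_3f635c_an
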