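import Pool.Agent.Lib.MP_3f635c_an.Params

/-
The Banach space.
-/

set_option autoImplicit false

noncomputable section

namespace Pool.Agent.Lib.MP_3f635c_an

open AddMonoidAlgebra BoundedContinuousFunction

attribute [-simp] LaurentPolynomial.single_eq_C_mul_T

theorem act_add (l : Let) (s t : Sq) : l.act (s + t) = l.act s + l.act t := by
  cases l with
  | rot u => funext n; simp [Let.act, rotS, add_mul]
  | toe c w =>
    funext n
    simp only [Let.act, toe, proj, map_add, Pi.add_apply]
    split_ifs <;> simp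

theorem act_smul (l : Let) (x : ℂ) (s : Sq) : l.act (x • s) = x • l.act s := by
  cases l with
  | rot u => funext n; simp [Let.act, rotS, mul_assoc]
  | toe c w =>
    funext n
    simp only [Let.act, toe, proj, map_smul, Pi.smul_apply]
    split_ifs <;> simp

theorem continuous_conv (c : Lau) (n : ℤ) : Continuous fun s : Sq => conv c s n := by
  simp only [conv_apply, Finsupp.sum]
  fun_prop

theorem act_continuous (l : Let) : Continuous l.act := by
  cases l with
  | rot u =>
    refine continuous_pi fun n => ?_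
    simp only [Let.act, rotS]
    fun_prop
  | toe c w =>
    refine continuous_pi fun n => ?_
    simp only [Let.act, toe, proj]
    split_ifs
    · exact continuous_conv c n
    · exact continuous_const

theorem wact_add (W : List Let) (s t : Sq) : wact W (s + t) = wact W s + wact W t := by
  induction W with
  | nil => rfl
  | cons l W ih => rw [wact_cons, wact_cons, wact_cons, ih, act_add]

theorem wact_smul (W : List Let) (x : ℂ) (s : Sq) : wact W (x • s) = x • wact W s := by
  induction W with
  | nil => rfl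
  | cons l W ih => rw [wact_cons, wact_cons, ih, act_smul]

theorem wact_continuous (W : List Let) : Continuous (wact W) := by
  induction W with
  | nil => exact continuous_id
  | cons l W ih => exact (act_continuous l).comp ih

theorem fn_add (ψ : ℤ ⊕ ℕ) (s t : Sq) : fn ψ (s + t) = fn ψ s + fn ψ t := by
  cases ψ with
  | inl n => rfl
  | inr k =>
    simp only [fn, phi]
    rw [← mul_add, ← pair_add_right]; rfl

theorem fn_smul (ψ : ℤ ⊕ ℕ) (x : ℂ) (s : Sq) : fn ψ (x • s) = x * fn ψ s := by
  cases ψ with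
  | inl n => rfl
  | inr k =>
    simp only [fn, phi, Pi.smul_apply, smul_eq_mul, mul_comm x]
    rw [pair_mul_right]; ring

theorem fn_continuous (ψ : ℤ ⊕ ℕ) : Continuous (fn ψ) := by
  cases ψ with
  | inl n => exact continuous_apply n
  | inr k =>
    change Continuous fun s : Sq => phi (NN k) (MM k) (AA k) s
    simp only [phi, pair_apply, Finsupp.sum]
    fun_prop

/-- The index set: a test functional and a word. -/
structure Idx : Type where
  ψ : ℤ ⊕ ℕ
  W : List Let
  hW : ∀ l ∈ W, Allowed l

instance : TopologicalSpace Idx := ⊥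
instance : DiscreteTopology Idx := ⟨rfl⟩

abbrev Big : Type := Idx →ᵇ ℂ

def ell (i : Idx) (s : Sq) : ℂ := fn i.ψ (wact i.W s) / (wwt i.W : ℂ)

def base (ψ : ℤ ⊕ ℕ) : Idx := ⟨ψ, [], by simp⟩

theorem ell_base (ψ : ℤ ⊕ ℕ) (s : Sq) : ell (base ψ) s = fn ψ s := by
  simp [ell, base, wact, wwt]

theorem ell_add (i : Idx) (s t : Sq) : ell i (s + t) = ell i s + ell i t := by
  rw [ell, wact_add, fn_add, add_div]; rfl

theorem ell_smul (i : Idx) (x : ℂ) (s : Sq) : ell i (x • s) = x * ell i s := by
  rw [ell, wact_smul, fn_smul, mul_div_assoc]; rfl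

theorem ell_zero (i : Idx) : ell i 0 = 0 := by
  have := ell_smul i 0 0
  rwa [zero_smul, zero_mul] at this

theorem ell_continuous (i : Idx) : Continuous (ell i) :=
  ((fn_continuous i.ψ).comp (wact_continuous i.W)).div_const _

/-- The coefficient sequence. -/
def coef (x : Big) : Sq := fun n => x (base (.inl n))

theorem coef_add (x y : Big) : coef (x + y) = coef x + coef y := rfl

theorem coef_smul (c : ℂ) (x : Big) : coef (c • x) = c • coef x := rfl

theorem coef_continuous : Continuous coef :=
  continuous_pi fun n => continuous_eval_const (base (.inl n))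

theorem norm_coef_le (x : Big) (n : ℤ) : ‖coef x n‖ ≤ ‖x‖ := norm_coe_le_norm x _

/-- The elements given by analytic polynomials. -/
def Pol : Submodule ℂ Big where
  carrier := {x | (∀ i, x i = ell i (coef x)) ∧ (∃ c : Lau, coef x = c.coeff) ∧
    ∀ n < 0, coef x n = 0}
  zero_mem' := ⟨fun i => (ell_zero i).symm, ⟨0, rfl⟩, fun _ _ => rfl⟩
  add_mem' := by
    rintro x y ⟨x1, ⟨c, x2⟩, x3⟩ ⟨y1, ⟨d, y2⟩, y3⟩
    refine ⟨fun i => ?_, ⟨c + d, by rw [coef_add, x2, y2]; rfl⟩, fun n hn => ?_⟩
    · rw [coef_add, ell_add, ← x1, ← y1]; rfl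
    · rw [coef_add, Pi.add_apply, x3 n hn, y3 n hn, add_zero]
  smul_mem' := by
    rintro a x ⟨x1, ⟨c, x2⟩, x3⟩
    refine ⟨fun i => ?_, ⟨a • c, by rw [coef_smul, x2]; rfl⟩, fun n hn => ?_⟩
    · rw [coef_smul, ell_smul, ← x1]; rfl
    · rw [coef_smul, Pi.smul_apply, x3 n hn, smul_zero]

/-- The space. -/
def XX : Submodule ℂ Big := Pol.topologicalClosure

instance : CompleteSpace XX := Pol.isClosed_topologicalClosure.completeSpace_coe

theorem good_of_mem {x : Big} (hx : x ∈ XX) (i : Idx) : x i = ell i (coef x) := by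
  have hc : IsClosed {x : Big | x i = ell i (coef x)} :=
    isClosed_eq (continuous_eval_const i) ((ell_continuous i).comp coef_continuous)
  exact closure_minimal (fun y hy => hy.1 i) hc hx

theorem nn_of_mem {x : Big} (hx : x ∈ XX) {n : ℤ} (hn : n < 0) : coef x n = 0 := by
  have hc : IsClosed {x : Big | coef x n = 0} :=
    isClosed_eq ((continuous_apply n).comp coef_continuous) continuous_const
  exact closure_minimal (fun y hy => hy.2.2 n hn) hc hx

theorem XX_ext {x y : XX} (h : coef x = coef y) : x = y := by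
  apply Subtype.ext
  ext i
  rw [good_of_mem x.2, good_of_mem y.2, h]

def snoc (l : Let) (hl : Allowed l) (i : Idx) : Idx :=
  ⟨i.ψ, i.W ++ [l], by
    intro l' h
    rcases List.mem_append.mp h with h | h
    · exact i.hW l' h
    · rw [List.mem_singleton.mp h]; exact hl⟩

theorem ell_snoc (l : Let) (hl : Allowed l) (i : Idx) (s : Sq) :
    (l.wt : ℂ) * ell (snoc l hl i) s = ell i (l.act s) := by
  have h1 : wact (i.W ++ [l]) s = wact i.W (l.act s) := by simp [wact]
  have h2 : wwt (i.W ++ [l]) = wwt i.W * l.wt := by simp [wwt]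
  have h3 : (l.wt : ℂ) ≠ 0 := by exact_mod_cast hl.wt_pos.ne'
  simp only [ell, snoc, h1, h2]
  push_cast
  field_simp

def opBig (l : Let) (hl : Allowed l) : Big →L[ℂ] Big :=
  (l.wt : ℂ) • compContinuousCLM ℂ ℂ ⟨snoc l hl, continuous_of_discreteTopology⟩

theorem opBig_apply (l : Let) (hl : Allowed l) (x : Big) (i : Idx) :
    opBig l hl x i = (l.wt : ℂ) * x (snoc l hl i) := rfl

theorem norm_opBig_apply (l : Let) (hl : Allowed l) (x : Big) : ‖opBig l hl x‖ ≤ l.wt * ‖x‖ := by
  have h := hl.wt_pos
  rw [norm_le (by positivity)]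
  intro i
  rw [opBig_apply, norm_mul, Complex.norm_real, Real.norm_of_nonneg h.le]
  exact mul_le_mul_of_nonneg_left (norm_coe_le_norm x _) h.le

theorem opBig_good (l : Let) (hl : Allowed l) {x : Big} (hx : ∀ i, x i = ell i (coef x))
    (i : Idx) : opBig l hl x i = ell i (l.act (coef x)) := by
  rw [opBig_apply, hx, ell_snoc]

theorem coef_opBig (l : Let) (hl : Allowed l) {x : Big} (hx : ∀ i, x i = ell i (coef x)) :
    coef (opBig l hl x) = l.act (coef x) := by
  funext n
  rw [coef, opBig_good l hl hx, ell_base]; rfl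

theorem act_lau (l : Let) (c : Lau) : ∃ d : Lau, l.act c.coeff = d.coeff := by
  cases l with
  | rot u => exact ⟨rot u c, by funext n; rw [coeff_rot]; rfl⟩
  | toe a w =>
    refine ⟨ofCoeff ((a * c).coeff.filter fun n => 0 ≤ n), ?_⟩
    funext n
    simp only [Let.act, toe, proj, conv_coeff, Finsupp.filter_apply]

theorem act_nn (l : Let) {s : Sq} (hs : ∀ n < 0, s n = 0) : ∀ n < 0, l.act s n = 0 := by
  intro n hn
  cases l with
  | rot u => simp only [Let.act, rotS, hs n hn, zero_mul]
  | toe a w => simp only [Let.act, toe, proj, if_neg (not_le.mpr hn)]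

theorem opBig_mem_Pol (l : Let) (hl : Allowed l) {x : Big} (hx : x ∈ Pol) :
    opBig l hl x ∈ Pol := by
  obtain ⟨h1, ⟨c, h2⟩, h3⟩ := hx
  refine ⟨fun i => ?_, ?_, ?_⟩
  · rw [coef_opBig l hl h1, opBig_good l hl h1]
  · rw [coef_opBig l hl h1, h2]; exact act_lau l c
  · rw [coef_opBig l hl h1]; exact act_nn l h3

theorem opBig_mem_XX (l : Let) (hl : Allowed l) (x : Big) (hx : x ∈ XX) : opBig l hl x ∈ XX :=
  map_mem_closure (opBig l hl).continuous hx fun _ hy => opBig_mem_Pol l hl hy

/-- The letters act on the space. -/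
def op (l : Let) (hl : Allowed l) : XX →L[ℂ] XX := (opBig l hl).restrict (opBig_mem_XX l hl)

theorem coef_op (l : Let) (hl : Allowed l) (x : XX) :
    coef (op l hl x : XX) = l.act (coef x) := coef_opBig l hl (good_of_mem x.2)

theorem norm_op_le (l : Let) (hl : Allowed l) : ‖op l hl‖ ≤ l.wt :=
  ContinuousLinearMap.opNorm_le_bound _ hl.wt_pos.le fun x => norm_opBig_apply l hl x

theorem norm_ell_one_le (i : Idx) : ‖ell i (1 : Lau).coeff‖ ≤ 1 := by
  have h := wwt_pos i.hW
  rw [ell, norm_div, Complex.norm_real, Real.norm_of_nonneg h.le, div_le_one h]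
  exact norm_fn_wact_le i.ψ i.hW

/-- The constant function one. -/
def oneBig : Big := ofNormedAddCommGroupDiscrete (fun i => ell i (1 : Lau).coeff) 1 norm_ell_one_le

theorem coef_oneBig : coef oneBig = (1 : Lau).coeff := by
  funext n
  exact ell_base (.inl n) _

theorem oneBig_mem : oneBig ∈ Pol := by
  refine ⟨fun i => by rw [coef_oneBig]; rfl, ⟨1, coef_oneBig⟩, fun n hn => ?_⟩
  rw [coef_oneBig]
  by_contra h
  have := sup_one n h
  omega

theorem allowed_shift (j : ℤ) : Allowed (.toe (single j 1) (j.natAbs + 1)) :=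
  Or.inr (Or.inl ⟨j, rfl⟩)

theorem allowed_sym (k : ℕ) : Allowed (.toe (sym k) (eta k)) := Or.inr (Or.inr ⟨k, rfl⟩)

theorem allowed_rot (u : Circle) : Allowed (.rot u) := Or.inl ⟨u, rfl⟩

/-- A polynomial as a Laurent polynomial. -/
def toLau : Polynomial ℂ →ₐ[ℂ] Lau := Polynomial.aeval (single 1 1 : Lau)

theorem toLau_monomial (n : ℕ) (a : ℂ) : toLau (Polynomial.monomial n a) = single (n : ℤ) a := by
  rw [toLau, Polynomial.aeval_monomial, single_pow, one_pow, ← Algebra.smul_def, smul_single]
  simp

theorem coeff_toLau (p : Polynomial ℂ) (n : ℕ) : (toLau p).coeff n = p.coeff n := by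
  induction p using Polynomial.induction_on' with
  | add p q hp hq => rw [map_add, coeff_add, Finsupp.add_apply, hp, hq, Polynomial.coeff_add]
  | monomial m a =>
    rw [toLau_monomial, coeff_single, Finsupp.single_apply, Polynomial.coeff_monomial]
    simp

theorem coeff_toLau_neg (p : Polynomial ℂ) {n : ℤ} (hn : n < 0) : (toLau p).coeff n = 0 := by
  induction p using Polynomial.induction_on' with
  | add p q hp hq => rw [map_add, coeff_add, Finsupp.add_apply, hp, hq, add_zero]
  | monomial m a =>
    rw [toLau_monomial, coeff_single, Finsupp.single_apply, if_neg (by omega)]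

theorem exists_Pol (p : Polynomial ℂ) : ∃ x ∈ Pol, coef x = (toLau p).coeff := by
  induction p using Polynomial.induction_on' with
  | add p q hp hq =>
    obtain ⟨x, hx, hx'⟩ := hp
    obtain ⟨y, hy, hy'⟩ := hq
    exact ⟨x + y, Pol.add_mem hx hy, by rw [coef_add, hx', hy', map_add]; rfl⟩
  | monomial m a =>
    refine ⟨a • opBig _ (allowed_shift m) oneBig,
      Pol.smul_mem a (opBig_mem_Pol _ _ oneBig_mem), ?_⟩
    rw [coef_smul, coef_opBig _ _ oneBig_mem.1, coef_oneBig, toLau_monomial]
    funext n
    simp only [Let.act, toe, proj, conv_coeff, mul_one, Pi.smul_apply, coeff_single,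
      Finsupp.single_apply, smul_eq_mul]
    split_ifs with h1 h2 h2
    · simp
    · simp
    · omega
    · simp

theorem exists_poly {x : Big} (hx : x ∈ Pol) :
    ∃ p : Polynomial ℂ, ∀ n : ℕ, coef x n = p.coeff n := by
  obtain ⟨-, ⟨c, hc⟩, -⟩ := hx
  refine ⟨∑ j ∈ c.coeff.support.preimage (fun n : ℕ => (n : ℤ)) Nat.cast_injective.injOn,
    Polynomial.monomial j (c.coeff j), fun n => ?_⟩
  rw [hc, Polynomial.finsetSum_coeff]
  simp only [Polynomial.coeff_monomial, Finset.sum_ite_eq', Finset.mem_preimage,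
    Finsupp.mem_support_iff]
  split_ifs with h
  · rfl
  · exact not_not.mp h

end Pool.Agent.Lib.MP_3f635c_an
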